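import Pool.Agent.H46.SR.Repair

/-! Resampling of coordinates in a finite product space. -/

namespace Pool.Agent.H46.TS

open Finset Pool.Agent.H46.SR

section
variable {ι B : Type*} [Fintype ι] [DecidableEq ι] [Fintype B]

open scoped Classical in
/-- replace the coordinates in `D` -/
noncomputable def mix (D : Set ι) (ω ω' : ι → B) : ι → B := fun c => if c ∈ D then ω' c else ω c

omit [Fintype ι] [DecidableEq ι] [Fintype B] in
theorem mix_mem {D : Set ι} {ω ω' : ι → B} {c : ι} (h : c ∈ D) : mix D ω ω' c = ω' c := by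
  unfold mix; rw [if_pos h]

omit [Fintype ι] [DecidableEq ι] [Fintype B] in
theorem mix_not_mem {D : Set ι} {ω ω' : ι → B} {c : ι} (h : c ∉ D) : mix D ω ω' c = ω c := by
  unfold mix; rw [if_neg h]

/-- swapping the coordinates in `D` -/
noncomputable def mixE (D : Set ι) : ((ι → B) × (ι → B)) ≃ ((ι → B) × (ι → B)) where
  toFun p := (mix D p.1 p.2, mix D p.2 p.1)
  invFun p := (mix D p.1 p.2, mix D p.2 p.1)
  left_inv := by
    rintro ⟨ω, ω'⟩
    apply Prod.ext
    · funext c
      by_cases h : c ∈ D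
      · simp only [mix_mem h]
      · simp only [mix_not_mem h]
    · funext c
      by_cases h : c ∈ D
      · simp only [mix_mem h]
      · simp only [mix_not_mem h]
  right_inv := by
    rintro ⟨ω, ω'⟩
    apply Prod.ext
    · funext c
      by_cases h : c ∈ D
      · simp only [mix_mem h]
      · simp only [mix_not_mem h]
    · funext c
      by_cases h : c ∈ D
      · simp only [mix_mem h]
      · simp only [mix_not_mem h]

theorem av_mix [Nonempty B] (D : Set ι) (f : (ι → B) → ℝ) :
    av f = av (fun ω => av (fun ω' => f (mix D ω ω'))) := by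
  have h1 : av (fun p : (ι → B) × (ι → B) => f p.1) = av f := by
    rw [av_prod]
    apply av_congr
    intro a
    exact av_const (Ω := ι → B) (f a)
  rw [← h1, ← av_equiv (mixE D), av_prod]
  rfl

/-- independence of functions of complementary sets of coordinates -/
theorem av_indep [Nonempty B] (D : Set ι) {f g : (ι → B) → ℝ}
    (hf : ∀ ω ω', f (mix D ω ω') = f ω') (hg : ∀ ω ω', g (mix D ω ω') = g ω) :
    av (fun ω => f ω * g ω) = av f * av g := by
  rw [av_mix D]
  simp only [hf, hg]
  have : ∀ ω : ι → B, av (fun ω' => f ω' * g ω) = av f * g ω := fun ω => av_mul_right _ _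
  simp only [this]
  exact av_mul_left _ _

/-- events depending on pairwise disjoint sets of coordinates, given the rest -/
theorem prod_bound [Nonempty B] {Λ : Type*} [DecidableEq Λ] (D : Λ → Set ι)
    (E : Λ → (ι → B) → Prop) {p : ℝ} (hp0 : 0 ≤ p)
    (inv : ∀ l l', l ≠ l' → ∀ ω ω', E l (mix (D l') ω ω') ↔ E l ω)
    (hp : ∀ l ω, av (fun ω' => ind (E l (mix (D l) ω ω'))) ≤ p) (S : Finset Λ) :
    av (fun ω => ind (∀ l ∈ S, E l ω)) ≤ p ^ S.card := by
  induction S using Finset.induction_on with
  | empty =>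
    simp only [notMem_empty, IsEmpty.forall_iff, implies_true, card_empty, pow_zero]
    exact (av_mono (fun _ => ind_le_one _)).trans (av_const 1).le
  | insert l0 S hl0 ih =>
    rw [av_mix (D l0), card_insert_of_notMem hl0, pow_succ']
    have h1 : ∀ ω ω', ind (∀ l ∈ insert l0 S, E l (mix (D l0) ω ω')) ≤
        ind (∀ l ∈ S, E l ω) * ind (E l0 (mix (D l0) ω ω')) := by
      intro ω ω'
      by_cases h : ∀ l ∈ insert l0 S, E l (mix (D l0) ω ω')
      · rw [ind_pos h, ind_pos, ind_pos (h l0 (mem_insert_self _ _))]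
        · norm_num
        · intro l hl
          have hne : l ≠ l0 := fun h' => hl0 (h' ▸ hl)
          exact (inv l l0 hne ω ω').mp (h l (mem_insert_of_mem hl))
      · rw [ind_neg h]
        exact mul_nonneg (ind_nonneg _) (ind_nonneg _)
    calc av (fun ω => av (fun ω' => ind (∀ l ∈ insert l0 S, E l (mix (D l0) ω ω'))))
        ≤ av (fun ω => av (fun ω' => ind (∀ l ∈ S, E l ω) * ind (E l0 (mix (D l0) ω ω')))) :=
          av_mono (fun ω => av_mono (fun ω' => h1 ω ω'))
      _ = av (fun ω => ind (∀ l ∈ S, E l ω) * av (fun ω' => ind (E l0 (mix (D l0) ω ω')))) :=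
          av_congr (fun ω => av_mul_left _ _)
      _ ≤ av (fun ω => ind (∀ l ∈ S, E l ω) * p) :=
          av_mono (fun ω => mul_le_mul_of_nonneg_left (hp l0 ω) (ind_nonneg _))
      _ = av (fun ω => ind (∀ l ∈ S, E l ω)) * p := av_mul_right _ _
      _ ≤ p ^ S.card * p := mul_le_mul_of_nonneg_right ih hp0
      _ = p * p ^ S.card := mul_comm _ _

/-- average of a product of functions of distinct coordinates -/
theorem av_coords [Nonempty B] {C : Type*} [Fintype C] [DecidableEq C] (σ : C → ι)
    (hσ : Function.Injective σ) (f : C → B → ℝ) :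
    av (fun ω : ι → B => ∏ c, f c (ω (σ c))) = ∏ c, av (f c) := by
  rw [av_comp_inj σ hσ (fun ω : C → B => ∏ c, f c (ω c))]
  exact av_pi_prod f

end

theorem ind_le_sum {Λ : Type*} [Fintype Λ] {p : Prop} {q : Λ → Prop} (h : p → ∃ l, q l) :
    ind p ≤ ∑ l, ind (q l) := by
  by_cases hp : p
  · obtain ⟨l, hl⟩ := h hp
    rw [ind_pos hp]
    calc (1 : ℝ) = ind (q l) := (ind_pos hl).symm
      _ ≤ ∑ l, ind (q l) := Finset.single_le_sum (fun l _ => ind_nonneg _) (mem_univ l)
  · rw [ind_neg hp]
    exact Finset.sum_nonneg (fun l _ => ind_nonneg _)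

theorem ind_mono {p q : Prop} (h : p → q) : ind p ≤ ind q := by
  by_cases hp : p
  · rw [ind_pos hp, ind_pos (h hp)]
  · rw [ind_neg hp]
    exact ind_nonneg _

theorem ind_and (p q : Prop) : ind (p ∧ q) = ind p * ind q := by
  by_cases hp : p
  · by_cases hq : q
    · rw [ind_pos hp, ind_pos hq, ind_pos ⟨hp, hq⟩, mul_one]
    · rw [ind_neg hq, ind_neg (fun h => hq h.2), mul_zero]
  · rw [ind_neg hp, ind_neg (fun h => hp h.1), zero_mul]

theorem ind_not (p : Prop) : ind (¬ p) = 1 - ind p := by
  by_cases hp : p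
  · rw [ind_pos hp, ind_neg (not_not.mpr hp)]; norm_num
  · rw [ind_neg hp, ind_pos hp]; norm_num

theorem ind_forall {C : Type*} [Fintype C] (q : C → Prop) : ind (∀ c, q c) = ∏ c, ind (q c) := by
  by_cases h : ∀ c, q c
  · rw [ind_pos h]
    symm
    exact Finset.prod_eq_one (fun c _ => ind_pos (h c))
  · rw [ind_neg h]
    push Not at h
    obtain ⟨c, hc⟩ := h
    symm
    exact Finset.prod_eq_zero (mem_univ c) (ind_neg hc)

end Pool.Agent.H46.TS
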