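import Pool.Agent.H46.TS.Final

/-! A bound for the degree. -/

namespace Pool.Agent.H46.TS

open Finset Filter

def Af (K : ℕ) : ℕ := 1024 * (K + 2) ^ 2

theorem Lf_le (K s : ℕ) : Lf K s ≤ Af K ^ (2 ^ s - 1) := by
  induction s with
  | zero => simp [Lf]
  | succ s ih =>
    have h1 : 1 ≤ Lf K s := Lf_pos K s
    have h2 : Lf K (s + 1) ≤ Af K * (Lf K s) ^ 2 := by
      show 8 * (K + 2) * (128 * (K + 1) * (Lf K s) ^ 2) + 1 ≤ Af K * (Lf K s) ^ 2
      unfold Af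
      nlinarith [Nat.pow_le_pow_left h1 2, Nat.zero_le (K * (Lf K s) ^ 2)]
    refine h2.trans ?_
    have h3 : 2 ^ (s + 1) - 1 = (2 ^ s - 1) * 2 + 1 := by
      have : 1 ≤ 2 ^ s := Nat.one_le_two_pow
      rw [pow_succ]
      omega
    rw [h3, pow_succ (Af K), pow_mul (Af K), mul_comm]
    exact Nat.mul_le_mul_right _ (Nat.pow_le_pow_left ih 2)

theorem Df_le (K s : ℕ) : Df K s ≤ Af K ^ (2 ^ (s + 1)) := by
  have h1 : Df K s ≤ Af K * (Lf K s) ^ 2 := by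
    unfold Df Af
    apply Nat.mul_le_mul_right
    nlinarith
  refine h1.trans ?_
  have hA : 1 ≤ Af K := by unfold Af; exact Nat.succ_le_of_lt (by positivity)
  have h2 : Af K * (Lf K s) ^ 2 ≤ Af K * (Af K ^ (2 ^ s - 1)) ^ 2 :=
    Nat.mul_le_mul_left _ (Nat.pow_le_pow_left (Lf_le K s) 2)
  refine h2.trans ?_
  rw [← pow_mul, ← pow_succ']
  apply Nat.pow_le_pow_right hA
  have : 1 ≤ 2 ^ s := Nat.one_le_two_pow
  rw [pow_succ]
  omega

theorem prod_Df_le (K t : ℕ) : ∏ s ∈ range t, Df K s ≤ Af K ^ (2 ^ (t + 1) - 2) := by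
  induction t with
  | zero => simp
  | succ t ih =>
    rw [Finset.prod_range_succ]
    refine (Nat.mul_le_mul ih (Df_le K t)).trans (le_of_eq ?_)
    rw [← pow_add]
    congr 1
    have : 2 ≤ 2 ^ (t + 1) := by
      calc 2 = 2 ^ 1 := rfl
        _ ≤ 2 ^ (t + 1) := Nat.pow_le_pow_right (by norm_num) (by omega)
    rw [pow_succ 2 (t + 1)]
    omega

theorem deg_le {K : ℕ} (R : Prm K) (hR : R.m = 100 * (K + 1) * ∏ s ∈ range (2 * K + 1), Df K s) :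
    R.deg ≤ 2 ^ 2 ^ (3 * K + 7) := by
  have hA : 1 ≤ Af K := by unfold Af; exact Nat.succ_le_of_lt (by positivity)
  have hA4 : 4 ≤ Af K := by unfold Af; nlinarith [Nat.pow_le_pow_left (show 1 ≤ K + 2 by omega) 2]
  have h1 : R.m ≤ Af K * Af K ^ (2 ^ (2 * K + 2) - 2) := by
    rw [hR]
    apply Nat.mul_le_mul _ (prod_Df_le K (2 * K + 1))
    unfold Af
    nlinarith
  have hx : 1 ≤ 2 ^ (2 * K) := Nat.one_le_two_pow
  have e1 : 2 ^ (2 * K + 2) = 4 * 2 ^ (2 * K) := by rw [pow_add]; ring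
  have h2 : R.m ≤ Af K ^ (4 * 2 ^ (2 * K) - 1) := by
    refine h1.trans (le_of_eq ?_)
    rw [← pow_succ', e1]
    congr 1
    omega
  have h3 : R.m + 1 ≤ 2 * Af K ^ (4 * 2 ^ (2 * K) - 1) := by
    have : 1 ≤ Af K ^ (4 * 2 ^ (2 * K) - 1) := Nat.one_le_pow _ _ hA
    omega
  have h4 : R.deg ≤ Af K ^ (8 * 2 ^ (2 * K)) := by
    unfold Prm.deg
    calc (R.m + 1) * (2 * Lf K (2 * K)) ≤
        (2 * Af K ^ (4 * 2 ^ (2 * K) - 1)) * (2 * Af K ^ (2 ^ (2 * K) - 1)) :=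
          Nat.mul_le_mul h3 (Nat.mul_le_mul_left _ (Lf_le K (2 * K)))
      _ = 4 * (Af K ^ (4 * 2 ^ (2 * K) - 1) * Af K ^ (2 ^ (2 * K) - 1)) := by ring
      _ ≤ Af K * (Af K ^ (4 * 2 ^ (2 * K) - 1) * Af K ^ (2 ^ (2 * K) - 1)) :=
          Nat.mul_le_mul_right _ hA4
      _ = Af K ^ ((4 * 2 ^ (2 * K) - 1) + (2 ^ (2 * K) - 1) + 1) := by
          rw [← pow_add, ← pow_succ']
      _ ≤ Af K ^ (8 * 2 ^ (2 * K)) := Nat.pow_le_pow_right hA (by omega)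
  have h5 : Af K ≤ 2 ^ (2 * K + 12) := by
    unfold Af
    have h6 : K + 2 ≤ 2 ^ (K + 1) := by
      clear * -
      induction K with
      | zero => norm_num
      | succ k ih =>
        rw [pow_succ]
        omega
    calc 1024 * (K + 2) ^ 2 ≤ 1024 * (2 ^ (K + 1)) ^ 2 :=
          Nat.mul_le_mul_left _ (Nat.pow_le_pow_left h6 2)
      _ = 2 ^ (2 * K + 12) := by
          rw [← pow_mul, show 2 * K + 12 = 10 + (K + 1) * 2 by ring, pow_add]
          norm_num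
  have h7 : 2 * K + 12 ≤ 2 ^ (K + 4) := by
    clear * -
    induction K with
    | zero => norm_num
    | succ k ih =>
      rw [show k + 1 + 4 = (k + 4) + 1 by ring, pow_succ]
      omega
  calc R.deg ≤ Af K ^ (8 * 2 ^ (2 * K)) := h4
    _ ≤ (2 ^ (2 * K + 12)) ^ (8 * 2 ^ (2 * K)) := Nat.pow_le_pow_left h5 _
    _ = 2 ^ ((2 * K + 12) * (8 * 2 ^ (2 * K))) := by rw [← pow_mul]
    _ ≤ 2 ^ (2 ^ (K + 4) * (8 * 2 ^ (2 * K))) :=
        Nat.pow_le_pow_right (by norm_num) (Nat.mul_le_mul_right _ h7)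
    _ = 2 ^ 2 ^ (3 * K + 7) := by
        congr 1
        rw [show 3 * K + 7 = (K + 4) + (3 + 2 * K) by ring, pow_add 2 (K + 4), pow_add 2 3]
        norm_num

/-- The main lower bound. -/
theorem main (k d : ℕ) (hk : 1 ≤ k) (hd : 2 ^ 2 ^ (3 * k + 4) ≤ d) (α : ℝ) (hα : α < k / 2) :
    ∀ᶠ n : ℕ in atTop, ∃ M : Fin n → Fin n → Prop, (∀ r, {c | M r c}.ncard ≤ d) ∧
      (∀ c, {r | M r c}.ncard ≤ d) ∧ (n : ℝ) ^ α ≤ Pool.Agent.H68.RS.R M := by
  obtain ⟨K, rfl⟩ := Nat.exists_eq_add_of_le' hk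
  obtain ⟨R, hR⟩ := exists_prm K
  have h1 : 3 * (K + 1) + 4 = 3 * K + 7 := by ring
  rw [h1] at hd
  have h2 := (deg_le R hR).trans hd
  have h3 : 2 * max α 0 < (K : ℝ) + 1 := by
    push_cast at hα
    rcases le_total α 0 with h | h
    · rw [max_eq_right h]
      have : (0 : ℝ) ≤ K := Nat.cast_nonneg _
      linarith
    · rw [max_eq_left h]
      linarith
  filter_upwards [R.eventually_K (le_max_right α 0) h3, eventually_ge_atTop 1] with n hn hn1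
  obtain ⟨M, hM1, hM2, hM3⟩ := hn
  refine ⟨M, fun r => (hM1 r).trans h2, fun c => (hM2 c).trans h2, le_trans ?_ hM3⟩
  exact Real.rpow_le_rpow_of_exponent_le (by exact_mod_cast hn1) (le_max_left _ _)

end Pool.Agent.H46.TS
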