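import Pool.Agent.H46.TS.Av2

/-! The multi-scale two-dimensional colouring. -/

namespace Pool.Agent.H46.TS

open Finset Pool.Agent.H46.SR

/-- basic data: scales `0..K`, cells of length `z ^ (s0 + i * w)`, flip probabilities
`1 / z ^ κ (a + b)` -/
structure Dat where
  K : ℕ
  s0 : ℕ
  w : ℕ
  κ : ℕ → ℕ
  z : ℕ
  hz : 2 ≤ z
  hκ : ∀ s, κ s ≤ κ 0

namespace Dat

variable (P : Dat)

def σ (i : ℕ) : ℕ := P.s0 + i * P.w
def N : ℕ := P.z ^ P.σ (P.K + 1)
/-- size of the alphabet -/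
def Q : ℕ := P.z ^ P.κ 0

abbrev T : Type := Fin (P.K + 1) × Fin (P.K + 1)
abbrev Co : Type := (Fin (P.K + 1) × Fin (P.K + 1)) × (Fin P.N × Fin P.N)
abbrev Sp : Type := P.Co → Fin P.Q

theorem zpos : 0 < P.z := by have := P.hz; omega
theorem Npos : 0 < P.N := Nat.pow_pos P.zpos
theorem Qpos : 0 < P.Q := Nat.pow_pos P.zpos

instance : Nonempty (Fin P.Q) := ⟨⟨0, P.Qpos⟩⟩

/-- the cell of `x` at scale `i` -/
def cell (i : ℕ) (x : Fin P.N) : Fin P.N :=
  ⟨x.val / P.z ^ P.σ i, lt_of_le_of_lt (Nat.div_le_self _ _) x.2⟩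

/-- flip of type `τ` at the cell `(p, q)` -/
def F (ω : P.Sp) (τ : P.T) (p q : Fin P.N) : ZMod 2 :=
  if (ω (τ, (p, q))).val % P.z ^ P.κ (τ.1.val + τ.2.val) = 0 then 1 else 0

/-- the colour -/
def col (ω : P.Sp) (x y : Fin P.N) : ZMod 2 :=
  ∑ τ : P.T, P.F ω τ (P.cell τ.1.val x) (P.cell τ.2.val y)

/-- no choice of positions in the cells `A i`, `B j` gives colour `t` throughout -/
def Stuck (ω : P.Sp) (τ : P.T) (t : ZMod 2) {I : Type} (A B : I → Fin P.N) : Prop :=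
  ∀ x y : I → Fin P.N, (∀ i, P.cell τ.1.val (x i) = A i) → (∀ i, P.cell τ.2.val (y i) = B i) →
    ∃ i j, P.col ω (x i) (y j) ≠ t

/-- the finer coordinates below the cells `A i × B j` -/
def D (τ : P.T) {I : Type} (A B : I → Fin P.N) : Set P.Co :=
  {c | c.1.1 ≤ τ.1 ∧ c.1.2 ≤ τ.2 ∧
    (∃ i, c.2.1.val / P.z ^ (P.σ τ.1.val - P.σ c.1.1.val) = (A i).val) ∧
    (∃ i, c.2.2.val / P.z ^ (P.σ τ.2.val - P.σ c.1.2.val) = (B i).val)}

theorem σ_mono : Monotone P.σ := fun _ _ h => Nat.add_le_add_left (Nat.mul_le_mul_right _ h) _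

theorem cell_cell {a b : ℕ} (h : a ≤ b) (x : Fin P.N) :
    (P.cell a x).val / P.z ^ (P.σ b - P.σ a) = (P.cell b x).val := by
  unfold cell
  simp only
  rw [Nat.div_div_eq_div_mul, ← pow_add]
  congr 2
  have := P.σ_mono h
  omega

theorem cell_eq_of_le {a b : ℕ} (h : a ≤ b) {x y : Fin P.N} (hxy : P.cell a x = P.cell a y) :
    P.cell b x = P.cell b y := by
  apply Fin.ext
  rw [← P.cell_cell h x, ← P.cell_cell h y, hxy]

/-- same parent -/
def Sib (p q : Fin P.N) : Prop := p.val / P.z ^ P.w = q.val / P.z ^ P.w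

theorem cell_eq_of_sib {a b : ℕ} (h : a < b) {x y : Fin P.N}
    (hxy : P.Sib (P.cell a x) (P.cell a y)) : P.cell b x = P.cell b y := by
  have h1 : P.cell (a + 1) x = P.cell (a + 1) y := by
    apply Fin.ext
    rw [← P.cell_cell (Nat.le_succ a) x, ← P.cell_cell (Nat.le_succ a) y]
    have : P.σ (a + 1) - P.σ a = P.w := by
      unfold σ
      rw [Nat.add_mul]
      omega
    rw [this]
    exact hxy
  exact P.cell_eq_of_le h h1

theorem F_mix {D : Set P.Co} {ω ω' : P.Sp} {τ : P.T} {p q : Fin P.N} (h : (τ, (p, q)) ∈ D) :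
    P.F (mix D ω ω') τ p q = P.F ω' τ p q := by
  unfold F
  rw [mix_mem h]

theorem F_mix' {D : Set P.Co} {ω ω' : P.Sp} {τ : P.T} {p q : Fin P.N} (h : (τ, (p, q)) ∉ D) :
    P.F (mix D ω ω') τ p q = P.F ω τ p q := by
  unfold F
  rw [mix_not_mem h]

/-- cells below `A i × B j` are in `D` -/
theorem mem_D {τ τ' : P.T} {I : Type} {A B : I → Fin P.N} (h1 : τ'.1 ≤ τ.1) (h2 : τ'.2 ≤ τ.2)
    {x y : Fin P.N} {i j : I} (hx : P.cell τ.1.val x = A i) (hy : P.cell τ.2.val y = B j) :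
    (τ', (P.cell τ'.1.val x, P.cell τ'.2.val y)) ∈ P.D τ A B := by
  refine ⟨h1, h2, ⟨i, ?_⟩, ⟨j, ?_⟩⟩
  · rw [← hx]
    exact P.cell_cell h1 x
  · rw [← hy]
    exact P.cell_cell h2 y

theorem of_mem_D {τ τ' : P.T} {I : Type} {A B : I → Fin P.N} {x y : Fin P.N}
    (h : (τ', (P.cell τ'.1.val x, P.cell τ'.2.val y)) ∈ P.D τ A B) :
    (∃ i, P.cell τ.1.val x = A i) ∧ ∃ j, P.cell τ.2.val y = B j := by
  obtain ⟨h1, h2, ⟨i, hi⟩, ⟨j, hj⟩⟩ := h
  refine ⟨⟨i, ?_⟩, ⟨j, ?_⟩⟩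
  · apply Fin.ext
    rw [← hi]
    exact (P.cell_cell h1 x).symm
  · apply Fin.ext
    rw [← hj]
    exact (P.cell_cell h2 y).symm

/-- the pattern: one flip in each `2 × 2` block -/
def pat {L : ℕ} (i j : Fin L × Bool) : ZMod 2 := if i.2 = false ∧ j.2 = false then 1 else 0

/-- the parity argument -/
theorem parity {L : ℕ} (ω : P.Sp) (τ : P.T) (t : ZMod 2) (A B : Fin L × Bool → Fin P.N)
    (hA : ∀ i i', P.Sib (A i) (A i')) (hB : ∀ i i', P.Sib (B i) (B i'))
    (hpat : ∀ i j, P.F ω τ (A i) (B j) = pat i j) (x y : Fin L × Bool → Fin P.N)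
    (hx : ∀ i, P.cell τ.1.val (x i) = A i) (hy : ∀ j, P.cell τ.2.val (y j) = B j)
    (hcol : ∀ i j, P.col ω (x i) (y j) = t) (l l' : Fin L) :
    ∃ (v v' : Bool) (τ' : P.T), τ'.1 ≤ τ.1 ∧ τ'.2 ≤ τ.2 ∧ τ' ≠ τ ∧
      P.F ω τ' (P.cell τ'.1.val (x (l, v))) (P.cell τ'.2.val (y (l', v'))) = 1 := by
  by_contra hcon
  push Not at hcon
  -- sum over the block
  have h1 : ∑ v : Bool, ∑ v' : Bool, P.col ω (x (l, v)) (y (l', v')) = 0 := by
    simp only [hcol, Finset.sum_const, Finset.card_univ, Fintype.card_bool]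
    rw [smul_smul]
    have : (2 * 2) • t = ((2 * 2 : ℕ) : ZMod 2) * t := by rw [nsmul_eq_mul]
    rw [this]
    have h4 : ((2 * 2 : ℕ) : ZMod 2) = 0 := by decide
    rw [h4, zero_mul]
  have h2 : ∑ v : Bool, ∑ v' : Bool, P.col ω (x (l, v)) (y (l', v')) =
      ∑ τ' : P.T, ∑ v : Bool, ∑ v' : Bool,
        P.F ω τ' (P.cell τ'.1.val (x (l, v))) (P.cell τ'.2.val (y (l', v'))) := by
    unfold col
    rw [Finset.sum_congr rfl (fun v _ => Finset.sum_comm), Finset.sum_comm]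
  rw [h2] at h1
  have h3 : ∀ τ' ∈ (univ : Finset P.T), τ' ≠ τ → ∑ v : Bool, ∑ v' : Bool,
        P.F ω τ' (P.cell τ'.1.val (x (l, v))) (P.cell τ'.2.val (y (l', v'))) = 0 := by
    intro τ' _ hne
    by_cases ha : τ'.1 ≤ τ.1
    · by_cases hb : τ'.2 ≤ τ.2
      · apply Finset.sum_eq_zero
        intro v _
        apply Finset.sum_eq_zero
        intro v' _
        have := hcon v v' τ' ha hb hne
        unfold F at this ⊢
        split_ifs at this ⊢ with h5
        · exact absurd rfl this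
        · rfl
      · -- independent of v'
        have hb' : τ.2.val < τ'.2.val := by
          rw [Fin.le_def] at hb; omega
        apply Finset.sum_eq_zero
        intro v _
        have h5 : ∀ v' : Bool, P.cell τ'.2.val (y (l', v')) = P.cell τ'.2.val (y (l', false)) := by
          intro v'
          apply P.cell_eq_of_sib hb'
          rw [hy, hy]
          exact hB _ _
        simp only [h5, Finset.sum_const, Finset.card_univ, Fintype.card_bool]
        rw [nsmul_eq_mul]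
        have h4 : ((2 : ℕ) : ZMod 2) = 0 := by decide
        rw [h4, zero_mul]
    · have ha' : τ.1.val < τ'.1.val := by
        rw [Fin.le_def] at ha; omega
      rw [Finset.sum_comm]
      apply Finset.sum_eq_zero
      intro v' _
      have h5 : ∀ v : Bool, P.cell τ'.1.val (x (l, v)) = P.cell τ'.1.val (x (l, false)) := by
        intro v
        apply P.cell_eq_of_sib ha'
        rw [hx, hx]
        exact hA _ _
      simp only [h5, Finset.sum_const, Finset.card_univ, Fintype.card_bool]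
      rw [nsmul_eq_mul]
      have h4 : ((2 : ℕ) : ZMod 2) = 0 := by decide
      rw [h4, zero_mul]
  rw [Finset.sum_eq_single τ h3 (fun h => absurd (mem_univ _) h)] at h1
  simp only [hx, hy, hpat, Fintype.sum_bool] at h1
  revert h1
  unfold pat
  simp

end Dat

end Pool.Agent.H46.TS
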