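import Pool.Agent.H46.TS.Col

/-! The probability of being stuck. -/

namespace Pool.Agent.H46.TS

open Finset Pool.Agent.H46.SR

theorem av_divmod {k m : ℕ} (G : ℕ → ℕ → ℝ) :
    av (fun b : Fin (k * m) => G (b.val / m) (b.val % m)) =
      av (fun p : Fin k × Fin m => G p.1.val p.2.val) := by
  rw [← av_equiv finProdFinEquiv]
  apply av_congr
  rintro ⟨a, b⟩
  have h1 : (finProdFinEquiv (a, b)).val = b.val + m * a.val := rfl
  have hm : 0 < m := lt_of_le_of_lt (Nat.zero_le _) b.2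
  rw [h1, Nat.add_mul_div_left _ _ hm, Nat.div_eq_of_lt b.2, zero_add, Nat.add_mul_mod_self_left,
    Nat.mod_eq_of_lt b.2]

theorem av_mod {Q k m : ℕ} (h : Q = k * m) (hk : 0 < k) (hm : 0 < m) :
    av (fun b : Fin Q => ind (b.val % m = 0)) = 1 / (m : ℝ) := by
  subst h
  have : Nonempty (Fin k) := ⟨⟨0, hk⟩⟩
  rw [av_divmod (fun _ y => ind (y = 0)), av_prod]
  have : ∀ a : Fin k, av (fun b : Fin m => ind (b.val = 0)) = 1 / (m : ℝ) :=
    fun _ => av_ind_zero hm
  rw [av_congr this]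
  exact av_const _

namespace Dat

variable (P : Dat)

/-- flip probability -/
noncomputable def pr (s : ℕ) : ℝ := 1 / (P.z : ℝ) ^ P.κ s

theorem pr_pos (s : ℕ) : 0 < P.pr s := by
  unfold pr
  have : (0 : ℝ) < P.z := by exact_mod_cast P.zpos
  positivity

theorem av_flip (s : ℕ) : av (fun b : Fin P.Q => ind (b.val % P.z ^ P.κ s = 0)) = P.pr s := by
  have h : P.Q = P.z ^ (P.κ 0 - P.κ s) * P.z ^ P.κ s := by
    unfold Q
    rw [← pow_add]
    congr 1
    have := P.hκ s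
    omega
  rw [av_mod h (Nat.pow_pos P.zpos) (Nat.pow_pos P.zpos)]
  unfold pr
  push_cast
  rfl

theorem pr_le_half {s : ℕ} (hs : 1 ≤ P.κ s) : P.pr s ≤ 1 / 2 := by
  unfold pr
  have hz : (2 : ℝ) ≤ P.z := by exact_mod_cast P.hz
  apply one_div_le_one_div_of_le (by norm_num)
  calc (2 : ℝ) ≤ P.z := hz
    _ = (P.z : ℝ) ^ 1 := (pow_one _).symm
    _ ≤ (P.z : ℝ) ^ P.κ s := pow_le_pow_right₀ (by linarith) hs

variable {L : ℕ}

/-- the pattern has probability at least `(pr / 2) ^ (2 L)^2` -/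
theorem av_pat (hκ1 : ∀ s, 1 ≤ P.κ s) (τ : P.T) (A B : Fin L × Bool → Fin P.N)
    (hA : Function.Injective A) (hB : Function.Injective B) :
    (P.pr (τ.1.val + τ.2.val) / 2) ^ (4 * L ^ 2) ≤
      av (fun ω : P.Sp => ind (∀ i j, P.F ω τ (A i) (B j) = pat i j)) := by
  classical
  set s := τ.1.val + τ.2.val with hs
  obtain ⟨f, hf⟩ : ∃ f : (Fin L × Bool) × (Fin L × Bool) → Fin P.Q → ℝ, ∀ c b, f c b =
      ind ((if b.val % P.z ^ P.κ s = 0 then (1 : ZMod 2) else 0) = pat c.1 c.2) :=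
    ⟨_, fun _ _ => rfl⟩
  have h1 : av (fun ω : P.Sp => ind (∀ i j, P.F ω τ (A i) (B j) = pat i j)) =
      av (fun ω : P.Sp => ∏ c, f c (ω (τ, (A c.1, B c.2)))) := by
    apply av_congr
    intro ω
    have : (∀ i j, P.F ω τ (A i) (B j) = pat i j) ↔
        ∀ c : (Fin L × Bool) × (Fin L × Bool), P.F ω τ (A c.1) (B c.2) = pat c.1 c.2 :=
      ⟨fun h c => h c.1 c.2, fun h i j => h (i, j)⟩
    rw [this, ind_forall]
    apply Finset.prod_congr rfl
    intro c _
    rw [hf]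
    rfl
  have hinj : Function.Injective (fun c : (Fin L × Bool) × (Fin L × Bool) =>
      ((τ, (A c.1, B c.2)) : P.Co)) := by
    rintro ⟨i, j⟩ ⟨i', j'⟩ h
    simp only [Prod.mk.injEq, true_and] at h
    exact Prod.ext (hA h.1) (hB h.2)
  rw [h1, av_coords _ hinj f]
  have hp := P.pr_pos s
  have hph := P.pr_le_half (hκ1 s)
  have h2 : ∀ c, P.pr s / 2 ≤ av (f c) := by
    intro c
    by_cases hc : c.1.2 = false ∧ c.2.2 = false
    · have : av (f c) = P.pr s := by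
        rw [← P.av_flip s]
        apply av_congr
        intro b
        rw [hf]
        congr 1
        unfold pat
        rw [if_pos hc]
        by_cases hb : b.val % P.z ^ P.κ s = 0
        · simp [hb]
        · simp [hb]
      rw [this]
      linarith
    · have : av (f c) = 1 + (-1) * P.pr s := by
        rw [← P.av_flip s, ← av_mul_left, ← av_const (Ω := Fin P.Q) (1 : ℝ), ← av_add]
        apply av_congr
        intro b
        rw [hf, av_const]
        unfold pat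
        rw [if_neg hc]
        by_cases hb : b.val % P.z ^ P.κ s = 0
        · rw [if_pos hb, ind_neg (by decide), ind_pos hb]
          norm_num
        · rw [if_neg hb, ind_pos rfl, ind_neg hb]
          norm_num
      rw [this]
      linarith
  calc (P.pr s / 2) ^ (4 * L ^ 2) = ∏ _c : (Fin L × Bool) × (Fin L × Bool), P.pr s / 2 := by
        rw [Finset.prod_const, Finset.card_univ]
        congr 1
        simp only [Fintype.card_prod, Fintype.card_fin, Fintype.card_bool]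
        ring
    _ ≤ ∏ c, av (f c) := by
        apply Finset.prod_le_prod
        · intro c _
          positivity
        · intro c _
          exact h2 c

/-- repair by finer flips -/
def Rep (ω : P.Sp) (τ : P.T) (A B : Fin L × Bool → Fin P.N) : Prop :=
  ∃ x y : Fin L × Bool → Fin P.N, (∀ i, P.cell τ.1.val (x i) = A i) ∧
    (∀ j, P.cell τ.2.val (y j) = B j) ∧ ∀ l l' : Fin L, ∃ (v v' : Bool) (τ' : P.T),
      (τ'.1 ≤ τ.1 ∧ τ'.2 ≤ τ.2 ∧ τ' ≠ τ) ∧
      P.F ω τ' (P.cell τ'.1.val (x (l, v))) (P.cell τ'.2.val (y (l', v'))) = 1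

theorem F_eq_one {ω : P.Sp} {τ : P.T} {p q : Fin P.N} :
    P.F ω τ p q = 1 ↔ (ω (τ, (p, q))).val % P.z ^ P.κ (τ.1.val + τ.2.val) = 0 := by
  unfold F
  split_ifs with h
  · simp [h]
  · simp [h]

theorem av_rep (τ : P.T) (A B : Fin L × Bool → Fin P.N) {p : ℝ} (hp0 : 0 ≤ p)
    (hA : Function.Injective A) (hB : Function.Injective B)
    (hp : ∀ τ' : P.T, τ'.1 ≤ τ.1 → τ'.2 ≤ τ.2 → τ' ≠ τ → P.pr (τ'.1.val + τ'.2.val) ≤ p) :
    av (fun ω : P.Sp => ind (P.Rep ω τ A B)) ≤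
      (P.N : ℝ) ^ (4 * L) * (4 * ((P.K + 1 : ℕ) : ℝ) ^ 2 * p) ^ (L ^ 2) := by
  classical
  -- a single choice
  obtain ⟨ev, hev⟩ : ∃ ev : ((Fin L × Bool → Fin P.N) × (Fin L × Bool → Fin P.N)) ×
      (Fin L × Fin L → Bool × Bool × P.T) → P.Sp → Prop, ∀ θ ω, ev θ ω ↔
      ((∀ i, P.cell τ.1.val (θ.1.1 i) = A i) ∧ (∀ j, P.cell τ.2.val (θ.1.2 j) = B j) ∧
        ∀ c : Fin L × Fin L, ((θ.2 c).2.2.1 ≤ τ.1 ∧ (θ.2 c).2.2.2 ≤ τ.2 ∧ (θ.2 c).2.2 ≠ τ) ∧
          P.F ω (θ.2 c).2.2 (P.cell (θ.2 c).2.2.1.val (θ.1.1 (c.1, (θ.2 c).1)))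
            (P.cell (θ.2 c).2.2.2.val (θ.1.2 (c.2, (θ.2 c).2.1))) = 1) :=
    ⟨fun θ ω => _, fun _ _ => Iff.rfl⟩
  have h1 : ∀ ω, ind (P.Rep ω τ A B) ≤ ∑ θ, ind (ev θ ω) := by
    intro ω
    apply ind_le_sum
    rintro ⟨x, y, hx, hy, hall⟩
    choose v v' τ' hτ' hF using hall
    exact ⟨((x, y), fun c => (v c.1 c.2, v' c.1 c.2, τ' c.1 c.2)), (hev _ _).mpr
      ⟨hx, hy, fun c => ⟨hτ' c.1 c.2, hF c.1 c.2⟩⟩⟩
  have h2 : ∀ θ, av (fun ω => ind (ev θ ω)) ≤ p ^ (L ^ 2) := by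
    intro θ
    by_cases hθ : (∀ i, P.cell τ.1.val (θ.1.1 i) = A i) ∧ (∀ j, P.cell τ.2.val (θ.1.2 j) = B j) ∧
        ∀ c : Fin L × Fin L, ((θ.2 c).2.2.1 ≤ τ.1 ∧ (θ.2 c).2.2.2 ≤ τ.2 ∧ (θ.2 c).2.2 ≠ τ)
    · obtain ⟨hx, hy, hval⟩ := hθ
      obtain ⟨co, hco⟩ : ∃ co : Fin L × Fin L → P.Co, ∀ c, co c =
          ((θ.2 c).2.2, (P.cell (θ.2 c).2.2.1.val (θ.1.1 (c.1, (θ.2 c).1)),
            P.cell (θ.2 c).2.2.2.val (θ.1.2 (c.2, (θ.2 c).2.1)))) := ⟨_, fun _ => rfl⟩
      obtain ⟨fl, hfl⟩ : ∃ fl : Fin L × Fin L → Fin P.Q → ℝ, ∀ c b, fl c b =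
          ind (b.val % P.z ^ P.κ ((θ.2 c).2.2.1.val + (θ.2 c).2.2.2.val) = 0) :=
        ⟨_, fun _ _ => rfl⟩
      have hinj : Function.Injective co := by
        intro c c' h
        rw [hco, hco] at h
        simp only [Prod.mk.injEq] at h
        obtain ⟨h3, h4, h5⟩ := h
        have e1 : P.cell τ.1.val (θ.1.1 (c.1, (θ.2 c).1)) =
            P.cell τ.1.val (θ.1.1 (c'.1, (θ.2 c').1)) := by
          apply P.cell_eq_of_le (hval c).1
          rw [h4, h3]
        have e2 : P.cell τ.2.val (θ.1.2 (c.2, (θ.2 c).2.1)) =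
            P.cell τ.2.val (θ.1.2 (c'.2, (θ.2 c').2.1)) := by
          apply P.cell_eq_of_le (hval c).2.1
          rw [h5, h3]
        rw [hx, hx] at e1
        rw [hy, hy] at e2
        have e3 := hA e1
        have e4 := hB e2
        simp only [Prod.mk.injEq] at e3 e4
        exact Prod.ext e3.1 e4.1
      have e5 : ∀ ω, ind (ev θ ω) ≤ ∏ c, fl c (ω (co c)) := by
        intro ω
        have e6 : ∏ c, fl c (ω (co c)) = ind (∀ c : Fin L × Fin L, (ω (co c)).val %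
            P.z ^ P.κ ((θ.2 c).2.2.1.val + (θ.2 c).2.2.2.val) = 0) := by
          rw [ind_forall]
          exact Finset.prod_congr rfl (fun c _ => hfl c _)
        rw [e6]
        apply ind_mono
        intro h c
        have := (((hev _ _).mp h).2.2 c).2
        rw [hco]
        exact P.F_eq_one.mp this
      have e7 : ∀ c, av (fl c) ≤ p := by
        intro c
        rw [av_congr (hfl c), P.av_flip]
        exact hp _ (hval c).1 (hval c).2.1 (hval c).2.2
      have e8 : ∀ c, 0 ≤ av (fl c) := by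
        intro c
        apply av_nonneg
        intro b
        rw [hfl]
        exact ind_nonneg _
      calc av (fun ω => ind (ev θ ω)) ≤ av (fun ω : P.Sp => ∏ c, fl c (ω (co c))) := av_mono e5
        _ = ∏ c, av (fl c) := av_coords co hinj fl
        _ ≤ ∏ _c : Fin L × Fin L, p := Finset.prod_le_prod (fun c _ => e8 c) (fun c _ => e7 c)
        _ = p ^ (L ^ 2) := by
            rw [Finset.prod_const, Finset.card_univ]
            congr 1
            simp only [Fintype.card_prod, Fintype.card_fin]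
            ring
    · have : ∀ ω, ind (ev θ ω) = 0 := by
        intro ω
        apply ind_neg
        intro h
        have h' := (hev _ _).mp h
        exact hθ ⟨h'.1, h'.2.1, fun c => (h'.2.2 c).1⟩
      simp only [this]
      rw [av_const]
      positivity
  refine (av_mono h1).trans ?_
  rw [av_sum]
  refine (Finset.sum_le_sum (fun θ _ => h2 θ)).trans (le_of_eq ?_)
  rw [Finset.sum_const, Finset.card_univ, nsmul_eq_mul]
  simp only [Fintype.card_prod, Fintype.card_fun, Fintype.card_fin, Fintype.card_bool]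
  push_cast
  rw [mul_pow, mul_pow, mul_pow]
  have e1 : (P.N : ℝ) ^ (L * 2) * (P.N : ℝ) ^ (L * 2) = (P.N : ℝ) ^ (4 * L) := by
    rw [← pow_add]
    congr 1
    ring
  rw [e1]
  have e4 : L * L = L ^ 2 := by ring
  have e3 : (4 * ((P.K : ℝ) + 1) ^ 2 * p) ^ (L ^ 2) = 2 ^ (L ^ 2) * (2 ^ (L ^ 2) *
      (((P.K : ℝ) + 1) ^ (L ^ 2) * ((P.K : ℝ) + 1) ^ (L ^ 2))) * p ^ (L ^ 2) := by
    rw [← mul_pow, ← mul_pow, ← mul_pow, ← mul_pow]
    congr 1
    ring
  rw [e3, e4]
  ring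

/-- the probability of being stuck, given everything outside the finer coordinates -/
theorem av_stuck (hκ1 : ∀ s, 1 ≤ P.κ s) (τ : P.T) (t : ZMod 2)
    (A B : Fin L × Bool → Fin P.N) {p : ℝ} (hp0 : 0 ≤ p)
    (hA : Function.Injective A) (hB : Function.Injective B)
    (hA' : ∀ i i', P.Sib (A i) (A i')) (hB' : ∀ i i', P.Sib (B i) (B i'))
    (hp : ∀ τ' : P.T, τ'.1 ≤ τ.1 → τ'.2 ≤ τ.2 → τ' ≠ τ → P.pr (τ'.1.val + τ'.2.val) ≤ p)
    (hhalf : (P.N : ℝ) ^ (4 * L) * (4 * ((P.K + 1 : ℕ) : ℝ) ^ 2 * p) ^ (L ^ 2) ≤ 1 / 2)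
    (ω : P.Sp) :
    (P.pr (τ.1.val + τ.2.val) / 2) ^ (4 * L ^ 2) / 2 ≤
      av (fun ω' => ind (P.Stuck (mix (P.D τ A B) ω ω') τ t A B)) := by
  classical
  obtain ⟨f, hf⟩ : ∃ f : P.Sp → ℝ, ∀ ω, f ω = ind (∀ i j, P.F ω τ (A i) (B j) = pat i j) :=
    ⟨_, fun _ => rfl⟩
  obtain ⟨g, hg⟩ : ∃ g : P.Sp → ℝ, ∀ ω, g ω = ind (¬ P.Rep ω τ A B) := ⟨_, fun _ => rfl⟩
  have h1 : ∀ ω', f ω' * g ω' ≤ ind (P.Stuck (mix (P.D τ A B) ω ω') τ t A B) := by
    intro ω'
    rw [hf, hg, ← ind_and]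
    apply ind_mono
    rintro ⟨hpat, hrep⟩ x y hx hy
    by_contra hcon
    push Not at hcon
    apply hrep
    refine ⟨x, y, hx, hy, fun l l' => ?_⟩
    have hpat' : ∀ i j, P.F (mix (P.D τ A B) ω ω') τ (A i) (B j) = pat i j := by
      intro i j
      rw [← hx i, ← hy j, P.F_mix (P.mem_D le_rfl le_rfl (hx i) (hy j)), hx i, hy j]
      exact hpat i j
    obtain ⟨v, v', τ', h2, h3, h4, h5⟩ := P.parity (mix (P.D τ A B) ω ω') τ t A B hA' hB' hpat'
      x y hx hy hcon l l'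
    refine ⟨v, v', τ', ⟨h2, h3, h4⟩, ?_⟩
    rw [P.F_mix (P.mem_D h2 h3 (hx _) (hy _))] at h5
    exact h5
  refine le_trans ?_ (av_mono h1)
  -- independence
  rw [av_indep {c : P.Co | c.1 = τ}]
  · have h2 : (P.pr (τ.1.val + τ.2.val) / 2) ^ (4 * L ^ 2) ≤ av f := by
      have := P.av_pat hκ1 τ A B hA hB
      rw [av_congr hf]
      exact this
    have h3 : 1 / 2 ≤ av g := by
      have h4 : av g = 1 + (-1) * av (fun ω : P.Sp => ind (P.Rep ω τ A B)) := by
        rw [← av_mul_left, ← av_const (Ω := P.Sp) (1 : ℝ), ← av_add]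
        apply av_congr
        intro ω
        rw [hg, av_const, ind_not]
        ring
      have h5 := (P.av_rep τ A B hp0 hA hB hp).trans hhalf
      rw [h4]
      linarith
    have h6 : 0 ≤ (P.pr (τ.1.val + τ.2.val) / 2) ^ (4 * L ^ 2) := by
      have := P.pr_pos (τ.1.val + τ.2.val)
      positivity
    calc (P.pr (τ.1.val + τ.2.val) / 2) ^ (4 * L ^ 2) / 2
        = (P.pr (τ.1.val + τ.2.val) / 2) ^ (4 * L ^ 2) * (1 / 2) := by ring
      _ ≤ av f * av g := mul_le_mul h2 h3 (by norm_num) (le_trans h6 h2)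
  · intro ω ω'
    rw [hf, hf]
    congr 1
    apply propext
    apply forall_congr'
    intro i
    apply forall_congr'
    intro j
    rw [P.F_mix]
    exact rfl
  · intro ω ω'
    rw [hg, hg]
    congr 2
    apply propext
    unfold Rep
    apply exists_congr
    intro x
    apply exists_congr
    intro y
    apply and_congr_right
    intro _
    apply and_congr_right
    intro _
    apply forall_congr'
    intro l
    apply forall_congr'
    intro l'
    apply exists_congr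
    intro v
    apply exists_congr
    intro v'
    apply exists_congr
    intro τ'
    apply and_congr_right
    intro h
    rw [P.F_mix']
    exact h.2.2

end Dat

end Pool.Agent.H46.TS
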