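import Pool.Agent.H46.TS.Embed

/-! Degrees of the random matrix, and the existence statement. -/

namespace Pool.Agent.H46.TS

open Finset Pool.Agent.H46.SR Pool.Agent.H68.RS

theorem marg1 {A A' B B' : Type*} [Fintype A] [Fintype A'] [Fintype B] [Fintype B'] [Nonempty A']
    [Nonempty B'] (f : A → B → ℝ) :
    av (fun p : (A × A') × (B × B') => f p.1.1 p.2.1) = av (fun q : A × B => f q.1 q.2) := by
  rw [av_prod, av_prod, av_prod]
  apply av_congr
  intro a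
  have h1 : ∀ _a' : A', av (fun b : B × B' => f a b.1) = av (fun b : B => f a b) := by
    intro _
    rw [av_prod]
    exact av_congr (fun b => av_const (Ω := B') (f a b))
  rw [av_congr h1]
  exact av_const (Ω := A') (av (fun b : B => f a b))

theorem marg2 {A A' B B' : Type*} [Fintype A] [Fintype A'] [Fintype B] [Fintype B'] [Nonempty A]
    [Nonempty B] (f : A' → B' → ℝ) :
    av (fun p : (A × A') × (B × B') => f p.1.2 p.2.2) = av (fun q : A' × B' => f q.1 q.2) := by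
  rw [av_prod, av_prod, av_prod]
  have h1 : ∀ a' : A', av (fun b : B × B' => f a' b.2) = av (fun b' : B' => f a' b') := by
    intro a'
    rw [av_prod]
    exact av_const (Ω := B) (av (fun b' : B' => f a' b'))
  have h2 : ∀ _a : A, av (fun a' : A' => av (fun b : B × B' => f a' b.2)) =
      av (fun a' : A' => av (fun b' : B' => f a' b')) := fun _ => av_congr h1
  exact (av_congr h2).trans (av_const _)

namespace Dat

variable (P : Dat)

/-- a given row belongs to a group with small probability -/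
theorem av_row {m k1 n Lm : ℕ} (hn : n = P.z ^ m) (hm : 2 * k1 * P.K ≤ m) (τ : P.T) (r : ℕ) :
    av (fun s : GS n Lm => ind (∃ i, P.row m k1 τ s i = r)) ≤ 2 * (Lm : ℝ) * (1 / (n : ℝ)) := by
  have hn0 : 0 < n := by rw [hn]; exact Nat.pow_pos P.zpos
  have : Nonempty (Fin n) := ⟨⟨0, hn0⟩⟩
  have hj : 2 * k1 * (P.K - τ.1.val) ≤ m := by
    have : 2 * k1 * (P.K - τ.1.val) ≤ 2 * k1 * P.K := Nat.mul_le_mul_left _ (Nat.sub_le _ _)
    omega
  have h1 : ∀ s : GS n Lm, ind (∃ i, P.row m k1 τ s i = r) ≤ ∑ i, ind (P.row m k1 τ s i = r) :=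
    fun s => ind_le_sum (fun h => h)
  refine (av_mono h1).trans ?_
  rw [av_sum]
  have h2 : ∀ i : Fin Lm × Bool, av (fun s : GS n Lm => ind (P.row m k1 τ s i = r)) ≤
      1 / (n : ℝ) := by
    intro i
    have h3 := marg1 (A := Fin n) (A' := Fin n) (B := Fin Lm × Bool → Fin n)
      (B' := Fin Lm × Bool → Fin n)
      (fun X Y => ind (pl (P.lev m k1 (P.K - τ.1.val)) X.val (Y i).val = r))
    refine (le_of_eq h3).trans ?_
    exact av_pl (hn.trans (P.lev_mul hj)) (Nat.pow_pos P.zpos) (P.lev_pos _ _ _) r i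
  refine (Finset.sum_le_sum (fun i _ => h2 i)).trans (le_of_eq ?_)
  rw [Finset.sum_const, Finset.card_univ, nsmul_eq_mul]
  simp only [Fintype.card_prod, Fintype.card_fin, Fintype.card_bool]
  push_cast
  ring

theorem av_clm {m k1 n Lm : ℕ} (hn : n = P.z ^ m) (hm : 2 * k1 * P.K ≤ m) (τ : P.T) (r : ℕ) :
    av (fun s : GS n Lm => ind (∃ i, P.clm m k1 τ s i = r)) ≤ 2 * (Lm : ℝ) * (1 / (n : ℝ)) := by
  have hn0 : 0 < n := by rw [hn]; exact Nat.pow_pos P.zpos
  have : Nonempty (Fin n) := ⟨⟨0, hn0⟩⟩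
  have hj : 2 * k1 * (P.K - τ.2.val) ≤ m := by
    have : 2 * k1 * (P.K - τ.2.val) ≤ 2 * k1 * P.K := Nat.mul_le_mul_left _ (Nat.sub_le _ _)
    omega
  have h1 : ∀ s : GS n Lm, ind (∃ i, P.clm m k1 τ s i = r) ≤ ∑ i, ind (P.clm m k1 τ s i = r) :=
    fun s => ind_le_sum (fun h => h)
  refine (av_mono h1).trans ?_
  rw [av_sum]
  have h2 : ∀ i : Fin Lm × Bool, av (fun s : GS n Lm => ind (P.clm m k1 τ s i = r)) ≤
      1 / (n : ℝ) := by
    intro i
    have h3 := marg2 (A := Fin n) (A' := Fin n) (B := Fin Lm × Bool → Fin n)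
      (B' := Fin Lm × Bool → Fin n)
      (fun X Y => ind (pl (P.lev m k1 (P.K - τ.2.val)) X.val (Y i).val = r))
    refine (le_of_eq h3).trans ?_
    exact av_pl (hn.trans (P.lev_mul hj)) (Nat.pow_pos P.zpos) (P.lev_pos _ _ _) r i
  refine (Finset.sum_le_sum (fun i _ => h2 i)).trans (le_of_eq ?_)
  rw [Finset.sum_const, Finset.card_univ, nsmul_eq_mul]
  simp only [Fintype.card_prod, Fintype.card_fin, Fintype.card_bool]
  push_cast
  ring

/-- general: too many groups contain a given line -/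
theorem av_many {n Lm G t : ℕ} (hn0 : 0 < n) (C : P.T → GS n Lm → ℕ → Prop) {ρ : ℝ}
    (hC : ∀ τ r, av (fun s : GS n Lm => ind (C τ s r)) ≤ ρ) :
    av (fun γ : P.T × Fin G → GS n Lm => ind (∃ (r : Fin n) (f : Fin t → P.T × Fin G),
      Function.Injective f ∧ ∀ k, C (f k).1 (γ (f k)) r.val)) ≤
      (n : ℝ) * (((P.K + 1 : ℕ) : ℝ) ^ 2 * G * ρ) ^ t := by
  classical
  have : Nonempty (Fin n) := ⟨⟨0, hn0⟩⟩
  have hρ0 : 0 ≤ ρ := by
    refine le_trans ?_ (hC (⟨0, by omega⟩, ⟨0, by omega⟩) 0)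
    exact av_nonneg (fun _ => ind_nonneg _)
  have h1 : ∀ γ : P.T × Fin G → GS n Lm, ind (∃ (r : Fin n) (f : Fin t → P.T × Fin G),
      Function.Injective f ∧ ∀ k, C (f k).1 (γ (f k)) r.val) ≤
      ∑ q : Fin n × (Fin t → P.T × Fin G), ind (Function.Injective q.2 ∧
        ∀ k, C (q.2 k).1 (γ (q.2 k)) q.1.val) := by
    intro γ
    apply ind_le_sum
    rintro ⟨r, f, hf, hk⟩
    exact ⟨(r, f), hf, hk⟩
  refine (av_mono h1).trans ?_
  rw [av_sum]
  have h2 : ∀ q : Fin n × (Fin t → P.T × Fin G), av (fun γ : P.T × Fin G → GS n Lm =>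
      ind (Function.Injective q.2 ∧ ∀ k, C (q.2 k).1 (γ (q.2 k)) q.1.val)) ≤ ρ ^ t := by
    intro q
    by_cases hq : Function.Injective q.2
    · obtain ⟨F, hF⟩ : ∃ F : Fin t → GS n Lm → ℝ, ∀ k s, F k s = ind (C (q.2 k).1 s q.1.val) :=
        ⟨_, fun _ _ => rfl⟩
      calc _ ≤ av (fun γ : P.T × Fin G → GS n Lm => ∏ k, F k (γ (q.2 k))) := by
            apply av_mono
            intro γ
            have : ∏ k, F k (γ (q.2 k)) = ind (∀ k, C (q.2 k).1 (γ (q.2 k)) q.1.val) := by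
              rw [ind_forall]
              exact Finset.prod_congr rfl (fun k _ => hF k _)
            rw [this]
            exact ind_mono (fun h => h.2)
        _ = ∏ k, av (F k) := av_coords q.2 hq F
        _ ≤ ∏ _k : Fin t, ρ := by
            apply Finset.prod_le_prod
            · intro k _
              apply av_nonneg
              intro s
              rw [hF]
              exact ind_nonneg _
            · intro k _
              rw [av_congr (hF k)]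
              exact hC _ _
        _ = ρ ^ t := by rw [Finset.prod_const, Finset.card_univ, Fintype.card_fin]
    · have : ∀ γ : P.T × Fin G → GS n Lm,
          ind (Function.Injective q.2 ∧ ∀ k, C (q.2 k).1 (γ (q.2 k)) q.1.val) = 0 :=
        fun γ => ind_neg (fun h => hq h.1)
      simp only [this]
      rw [av_const]
      positivity
  refine (Finset.sum_le_sum (fun q _ => h2 q)).trans (le_of_eq ?_)
  rw [Finset.sum_const, Finset.card_univ, nsmul_eq_mul]
  simp only [Fintype.card_prod, Fintype.card_fun, Fintype.card_fin]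
  push_cast
  rw [mul_assoc, ← mul_pow]
  congr 2
  ring

theorem exists_inj_of_card {Λ : Type*} [Fintype Λ] (p : Λ → Prop) {t : ℕ}
    (h : ¬ ∃ f : Fin t → Λ, Function.Injective f ∧ ∀ k, p (f k)) :
    {l | p l}.ncard ≤ t := by
  classical
  by_contra hcon
  push Not at hcon
  apply h
  have h1 : Fintype.card (Fin t) ≤ Fintype.card {l // p l} := by
    rw [Fintype.card_fin]
    have h2 : {l | p l}.ncard = Fintype.card {l // p l} := by
      rw [← Nat.card_coe_set_eq, Nat.card_eq_fintype_card]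
      rfl
    omega
  obtain ⟨f⟩ := Function.Embedding.nonempty_of_card_le h1
  exact ⟨fun k => (f k).val, fun a b hab => f.injective (Subtype.ext hab), fun k => (f k).2⟩

theorem deg_row {m k1 n n' Lm G t : ℕ} (γ : P.T × Fin G → GS n Lm) (r : Fin n')
    (h : ¬ ∃ f : Fin t → P.T × Fin G, Function.Injective f ∧
      ∀ k, ∃ i, P.row m k1 (f k).1 (γ (f k)) i = r.val) :
    {c | P.Mt m k1 n' γ r c}.ncard ≤ t * (2 * Lm) := by
  classical
  have h1 := exists_inj_of_card (fun l : P.T × Fin G => ∃ i, P.row m k1 l.1 (γ l) i = r.val) h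
  set S : Set (P.T × Fin G) := {l | ∃ i, P.row m k1 l.1 (γ l) i = r.val} with hS
  have hfin : S.Finite := Set.toFinite _
  calc {c | P.Mt m k1 n' γ r c}.ncard
      ≤ ((fun q : (P.T × Fin G) × (Fin Lm × Bool) => P.clm m k1 q.1.1 (γ q.1) q.2) ''
          (S ×ˢ Set.univ)).ncard := by
        apply Set.ncard_le_ncard_of_injOn (fun c : Fin n' => c.val)
        · rintro c ⟨τ, g, i, j, hr, hc⟩
          exact ⟨((τ, g), j), ⟨⟨i, hr.symm⟩, Set.mem_univ _⟩, hc.symm⟩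
        · exact Fin.val_injective.injOn
    _ ≤ (S ×ˢ (Set.univ : Set (Fin Lm × Bool))).ncard :=
        Set.ncard_image_le (hfin.prod Set.finite_univ)
    _ = S.ncard * (2 * Lm) := by
        rw [Set.ncard_prod, Set.ncard_univ, Nat.card_eq_fintype_card]
        simp only [Fintype.card_prod, Fintype.card_fin, Fintype.card_bool]
        ring
    _ ≤ t * (2 * Lm) := Nat.mul_le_mul_right _ h1

theorem deg_clm {m k1 n n' Lm G t : ℕ} (γ : P.T × Fin G → GS n Lm) (c : Fin n')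
    (h : ¬ ∃ f : Fin t → P.T × Fin G, Function.Injective f ∧
      ∀ k, ∃ i, P.clm m k1 (f k).1 (γ (f k)) i = c.val) :
    {r | P.Mt m k1 n' γ r c}.ncard ≤ t * (2 * Lm) := by
  classical
  have h1 := exists_inj_of_card (fun l : P.T × Fin G => ∃ i, P.clm m k1 l.1 (γ l) i = c.val) h
  set S : Set (P.T × Fin G) := {l | ∃ i, P.clm m k1 l.1 (γ l) i = c.val} with hS
  have hfin : S.Finite := Set.toFinite _
  calc {r | P.Mt m k1 n' γ r c}.ncard
      ≤ ((fun q : (P.T × Fin G) × (Fin Lm × Bool) => P.row m k1 q.1.1 (γ q.1) q.2) ''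
          (S ×ˢ Set.univ)).ncard := by
        apply Set.ncard_le_ncard_of_injOn (fun r : Fin n' => r.val)
        · rintro r ⟨τ, g, i, j, hr, hc⟩
          exact ⟨((τ, g), i), ⟨⟨j, hc.symm⟩, Set.mem_univ _⟩, hr.symm⟩
        · exact Fin.val_injective.injOn
    _ ≤ (S ×ˢ (Set.univ : Set (Fin Lm × Bool))).ncard :=
        Set.ncard_image_le (hfin.prod Set.finite_univ)
    _ = S.ncard * (2 * Lm) := by
        rw [Set.ncard_prod, Set.ncard_univ, Nat.card_eq_fintype_card]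
        simp only [Fintype.card_prod, Fintype.card_fin, Fintype.card_bool]
        ring
    _ ≤ t * (2 * Lm) := Nat.mul_le_mul_right _ h1

/-- existence of the matrix and the colouring -/
theorem exists_matrix {m k1 n n' y G Lm t : ℕ} (hn : n = P.z ^ m) (hk1 : 1 ≤ k1)
    (hs0 : P.s0 + 2 * k1 * (P.K + 1) < m) (hnn : n ≤ n') (hy : 0 < y) (ht : 1 ≤ t)
    {Lf : ℕ → ℕ} (hLm : ∀ s, s ≤ 2 * P.K → Lf s ≤ Lm) {ω : P.Sp} (hω : P.Good ω Lf y)
    (hsm : ∀ s, s ≤ 2 * P.K → (2 * (Lf s : ℝ) * y) ^ 2 * (1 / (P.z : ℝ) ^ k1) ≤ 1 / 4)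
    (hdeg : (n : ℝ) * (((P.K + 1 : ℕ) : ℝ) ^ 2 * G * (2 * (Lm : ℝ) * (1 / (n : ℝ)))) ^ t ≤ 1 / 4)
    (hunion : 2 * ((P.K + 1 : ℕ) : ℝ) ^ 2 * (n : ℝ) ^ 2 * (P.N : ℝ) ^ 2 *
      ((n : ℝ) + 1) ^ (2 * P.z ^ P.w) *
      (1 - 1 / ((P.z : ℝ) ^ (4 * k1 * P.K) * (2 * (y : ℝ) ^ 2))) ^ G ≤ 1 / 4) :
    ∃ M : Fin n' → Fin n' → Prop, (∀ r, {c | M r c}.ncard ≤ t * (2 * Lm)) ∧
      (∀ c, {r | M r c}.ncard ≤ t * (2 * Lm)) ∧ ¬ HasMonoCopy M (P.chi ω) := by
  classical
  have hn0 : 0 < n := by rw [hn]; exact Nat.pow_pos P.zpos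
  have : Nonempty (Fin n) := ⟨⟨0, hn0⟩⟩
  have hmK : 2 * k1 * P.K ≤ m := by
    have : 2 * k1 * P.K ≤ 2 * k1 * (P.K + 1) := Nat.mul_le_mul_left _ (by omega)
    omega
  -- the three bad events
  obtain ⟨e1, he1⟩ : ∃ e1 : (P.T × Fin G → GS n Lm) → Prop, ∀ γ, e1 γ ↔
      ∃ (r : Fin n) (f : Fin t → P.T × Fin G),
      Function.Injective f ∧ ∀ k, ∃ i, P.row m k1 (f k).1 (γ (f k)) i = r.val :=
    ⟨fun γ => _, fun _ => Iff.rfl⟩
  obtain ⟨e2, he2⟩ : ∃ e2 : (P.T × Fin G → GS n Lm) → Prop, ∀ γ, e2 γ ↔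
      ∃ (r : Fin n) (f : Fin t → P.T × Fin G),
      Function.Injective f ∧ ∀ k, ∃ i, P.clm m k1 (f k).1 (γ (f k)) i = r.val :=
    ⟨fun γ => _, fun _ => Iff.rfl⟩
  obtain ⟨e3, he3⟩ : ∃ e3 : (P.T × Fin G → GS n Lm) → Prop, ∀ γ, e3 γ ↔
      ∃ θ : P.Th n, P.Val m k1 θ ∧ ∀ g : Fin G, ¬ P.EVθ m k1 hLm ω θ (γ (θ.1.1, g)) :=
    ⟨fun γ => _, fun _ => Iff.rfl⟩
  have h1 : av (fun γ => ind (e1 γ)) ≤ 1 / 4 := by
    have := P.av_many (G := G) (t := t) hn0 (fun τ s r => ∃ i, P.row m k1 τ s i = r)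
      (fun τ r => P.av_row (Lm := Lm) hn hmK τ r)
    refine le_trans (le_of_eq ?_) (this.trans hdeg)
    exact av_congr (fun γ => by rw [he1])
  have h2 : av (fun γ => ind (e2 γ)) ≤ 1 / 4 := by
    have := P.av_many (G := G) (t := t) hn0 (fun τ s r => ∃ i, P.clm m k1 τ s i = r)
      (fun τ r => P.av_clm (Lm := Lm) hn hmK τ r)
    refine le_trans (le_of_eq ?_) (this.trans hdeg)
    exact av_congr (fun γ => by rw [he2])
  have h3 : av (fun γ => ind (e3 γ)) ≤ 1 / 4 := by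
    have h4 : ∀ γ, ind (e3 γ) ≤ ∑ θ : P.Th n, ind (P.Val m k1 θ ∧
        ∀ g : Fin G, ¬ P.EVθ m k1 hLm ω θ (γ (θ.1.1, g))) := by
      intro γ
      rw [he3]
      exact ind_le_sum (fun h => h)
    refine (av_mono h4).trans ?_
    rw [av_sum]
    refine (Finset.sum_le_sum (fun θ _ => P.av_fail hn hmK hy hLm hω hsm θ)).trans ?_
    rw [Finset.sum_const, Finset.card_univ, nsmul_eq_mul, P.card_Th]
    exact hunion
  have h4 : ∃ γ, ¬ e1 γ ∧ ¬ e2 γ ∧ ¬ e3 γ := by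
    by_contra hcon
    push Not at hcon
    have h5 : ∀ γ, (1 : ℝ) ≤ ind (e1 γ) + ind (e2 γ) + ind (e3 γ) := by
      intro γ
      by_cases ha : e1 γ
      · rw [ind_pos ha]
        linarith [ind_nonneg (e2 γ), ind_nonneg (e3 γ)]
      · by_cases hb : e2 γ
        · rw [ind_pos hb]
          linarith [ind_nonneg (e1 γ), ind_nonneg (e3 γ)]
        · rw [ind_pos (hcon γ ha hb)]
          linarith [ind_nonneg (e1 γ), ind_nonneg (e2 γ)]
    have h6 := av_mono h5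
    rw [av_const, av_add, av_add] at h6
    linarith
  obtain ⟨γ, hγ1, hγ2, hγ3⟩ := h4
  rw [he1] at hγ1
  rw [he2] at hγ2
  rw [he3] at hγ3
  have hrow : ∀ τ : P.T, ∀ s : GS n Lm, ∀ i, P.row m k1 τ s i < n := by
    intro τ s i
    have hja : 2 * k1 * (P.K - τ.1.val) ≤ m := by
      have : 2 * k1 * (P.K - τ.1.val) ≤ 2 * k1 * P.K := Nat.mul_le_mul_left _ (Nat.sub_le _ _)
      omega
    exact pl_lt (hn.trans (P.lev_mul hja)) (P.lev_pos _ _ _) s.1.1.2 _
  have hclm : ∀ τ : P.T, ∀ s : GS n Lm, ∀ i, P.clm m k1 τ s i < n := by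
    intro τ s i
    have hja : 2 * k1 * (P.K - τ.2.val) ≤ m := by
      have : 2 * k1 * (P.K - τ.2.val) ≤ 2 * k1 * P.K := Nat.mul_le_mul_left _ (Nat.sub_le _ _)
      omega
    exact pl_lt (hn.trans (P.lev_mul hja)) (P.lev_pos _ _ _) s.1.2.2 _
  refine ⟨P.Mt m k1 n' γ, ?_, ?_, ?_⟩
  · intro r
    apply P.deg_row γ r
    rintro ⟨f, hf, hk⟩
    obtain ⟨i, hi⟩ := hk ⟨0, ht⟩
    have hrn : r.val < n := by rw [← hi]; exact hrow _ _ _
    exact hγ1 ⟨⟨r.val, hrn⟩, f, hf, hk⟩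
  · intro c
    apply P.deg_clm γ c
    rintro ⟨f, hf, hk⟩
    obtain ⟨i, hi⟩ := hk ⟨0, ht⟩
    have hcn : c.val < n := by rw [← hi]; exact hclm _ _ _
    exact hγ2 ⟨⟨c.val, hcn⟩, f, hf, hk⟩
  · intro hcopy
    exact hγ3 (P.copy_imp hn hk1 hs0 hnn hLm ω γ hcopy)

end Dat

end Pool.Agent.H46.TS
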