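import Pool.Agent.H46.TS.Group

/-! The descent to the right scale, and coding of monotone maps. -/

namespace Pool.Agent.H46.TS

open Finset Pool.Agent.H46.SR

/-- sum over blocks: a function of `Y % l` -/
theorem av_fun_mod {q l : ℕ} (hq : 0 < q) (G : ℕ → ℝ) :
    av (fun X : Fin (q * l) => G (X.val % l)) = av (fun X : Fin l => G X.val) := by
  have : Nonempty (Fin q) := ⟨⟨0, hq⟩⟩
  rw [av_divmod (fun _ y => G y), av_prod]
  show av (fun _ : Fin q => av (fun b : Fin l => G b.val)) = _
  exact av_const _

namespace Dat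

variable (P : Dat)

/-- block length -/
def lev (m k1 j : ℕ) : ℕ := P.z ^ (m - 2 * k1 * j)

theorem lev_pos (m k1 j : ℕ) : 0 < P.lev m k1 j := Nat.pow_pos P.zpos

theorem lev_mul {m k1 j : ℕ} (h : 2 * k1 * j ≤ m) :
    P.z ^ m = P.z ^ (2 * k1 * j) * P.lev m k1 j := by
  unfold lev
  rw [← pow_add]
  congr 1
  omega

/-- descent -/
theorem descent {m k1 n : ℕ} (hn : n = P.z ^ m) (hk1 : 1 ≤ k1)
    (hs0 : P.s0 + 2 * k1 * (P.K + 1) < m) (φ : Fin n → Fin P.N) (hφ : StrictMono φ) :
    ∃ j ≤ P.K, ∃ β p : ℕ, β < P.z ^ (2 * k1 * j) ∧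
      (∀ r : Fin n, r.val / P.lev m k1 j = β → (φ r).val / P.z ^ P.σ (P.K + 1 - j) = p) ∧
      ∀ v : ℕ, (univ.filter (fun r : Fin n => r.val / P.lev m k1 j = β ∧
        (φ r).val / P.z ^ P.σ (P.K - j) = v)).card * P.z ^ k1 ≤ P.lev m k1 j := by
  classical
  by_contra hcon
  push Not at hcon
  have hz := P.hz
  -- the block at every level
  have key : ∀ j, j ≤ P.K + 1 → ∃ β p : ℕ, β < P.z ^ (2 * k1 * j) ∧
      (∀ r : Fin n, r.val / P.lev m k1 j = β → (φ r).val / P.z ^ P.σ (P.K + 1 - j) = p) := by
    intro j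
    induction j with
    | zero =>
      intro _
      refine ⟨0, 0, by simp, ?_⟩
      intro r _
      apply Nat.div_eq_of_lt
      exact (φ r).2
    | succ j ih =>
      intro hj
      obtain ⟨β, p, hβ, hp⟩ := ih (by omega)
      obtain ⟨v, hv⟩ := hcon j (by omega) β p hβ hp
      set S := univ.filter (fun r : Fin n => r.val / P.lev m k1 j = β ∧
        (φ r).val / P.z ^ P.σ (P.K - j) = v) with hS
      have hKj : P.K + 1 - (j + 1) = P.K - j := by omega
      -- sizes
      have h2k : 2 * k1 * (j + 1) ≤ m := by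
        have : 2 * k1 * (j + 1) ≤ 2 * k1 * (P.K + 1) := Nat.mul_le_mul_left _ hj
        omega
      have hlev : P.lev m k1 j = P.z ^ (2 * k1) * P.lev m k1 (j + 1) := by
        unfold lev
        rw [← pow_add]
        congr 1
        rw [Nat.mul_add, mul_one] at h2k ⊢
        omega
      have hcard : 2 * P.lev m k1 (j + 1) < S.card := by
        by_contra hc
        push Not at hc
        have h1 : S.card * P.z ^ k1 ≤ 2 * P.lev m k1 (j + 1) * P.z ^ k1 := Nat.mul_le_mul_right _ hc
        have h2 : 2 * P.lev m k1 (j + 1) * P.z ^ k1 ≤ P.lev m k1 j := by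
          rw [hlev]
          have h3 : P.z ^ (2 * k1) = P.z ^ k1 * P.z ^ k1 := by rw [← pow_add]; congr 1; ring
          have h4 : 2 ≤ P.z ^ k1 := le_trans hz (Nat.le_self_pow (by omega) _)
          rw [h3]
          calc 2 * P.lev m k1 (j + 1) * P.z ^ k1 ≤ P.z ^ k1 * P.lev m k1 (j + 1) * P.z ^ k1 :=
                Nat.mul_le_mul_right _ (Nat.mul_le_mul_right _ h4)
            _ = P.z ^ k1 * P.z ^ k1 * P.lev m k1 (j + 1) := by ring
        omega
      have hSne : S.Nonempty := by
        rw [← card_pos]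
        omega
      set r0 := S.min' hSne with hr0
      set r1 := S.max' hSne with hr1
      have hr0S : r0 ∈ S := S.min'_mem hSne
      have hr1S : r1 ∈ S := S.max'_mem hSne
      have hsub : S ⊆ Finset.Icc r0 r1 := by
        intro r hr
        rw [Finset.mem_Icc]
        exact ⟨S.min'_le r hr, S.le_max' r hr⟩
      have hcard2 : S.card ≤ r1.val + 1 - r0.val := by
        have := card_le_card hsub
        rwa [Fin.card_Icc] at this
      rw [hS, mem_filter] at hr0S hr1S
      set l' := P.lev m k1 (j + 1) with hl'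
      have hl'pos : 0 < l' := P.lev_pos _ _ _
      -- the new block
      set β' := r0.val / l' + 1 with hβ'
      have hb1 : r0.val < β' * l' := by
        have := Nat.lt_div_mul_add hl'pos (a := r0.val)
        rw [hβ', Nat.add_mul, one_mul]
        exact this
      have hb2 : β' * l' ≤ r0.val + l' := by
        rw [hβ', Nat.add_mul, one_mul]
        have := Nat.div_mul_le_self r0.val l'
        omega
      have hr1n := r1.2
      have hmul : P.z ^ m = P.z ^ (2 * k1 * (j + 1)) * l' := P.lev_mul h2k
      refine ⟨β', v, ?_, ?_⟩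
      · -- β' < z ^ (2 k1 (j+1))
        have h1 : β' * l' < n := by omega
        rw [hn, hmul] at h1
        exact Nat.lt_of_mul_lt_mul_right h1
      · intro r hr
        rw [hKj]
        have h1 : β' * l' ≤ r.val := by
          rw [← hr]
          exact Nat.div_mul_le_self _ _
        have h2 : r.val < β' * l' + l' := by
          have := Nat.lt_div_mul_add hl'pos (a := r.val)
          rw [hr] at this
          exact this
        have h3 : r0 ≤ r := by
          rw [Fin.le_def]
          omega
        have h4 : r ≤ r1 := by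
          rw [Fin.le_def]
          omega
        have h5 : (φ r0).val ≤ (φ r).val := hφ.monotone h3
        have h6 : (φ r).val ≤ (φ r1).val := hφ.monotone h4
        have h7 := Nat.div_le_div_right (c := P.z ^ P.σ (P.K - j)) h5
        have h8 := Nat.div_le_div_right (c := P.z ^ P.σ (P.K - j)) h6
        rw [hr0S.2.2] at h7
        rw [hr1S.2.2] at h8
        omega
  -- contradiction at the last level
  obtain ⟨β, p, hβ, hp⟩ := key (P.K + 1) le_rfl
  set l := P.lev m k1 (P.K + 1) with hl
  have hlpos : 0 < l := P.lev_pos _ _ _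
  have hmul : P.z ^ m = P.z ^ (2 * k1 * (P.K + 1)) * l := P.lev_mul (by omega)
  have hsub : P.K + 1 - (P.K + 1) = 0 := by omega
  rw [hsub] at hp
  have hσ0 : P.σ 0 = P.s0 := by simp [σ]
  rw [hσ0] at hp
  have hnl : (β + 1) * l ≤ n := by
    rw [hn, hmul]
    exact Nat.mul_le_mul_right _ hβ
  have hzs : 0 < P.z ^ P.s0 := Nat.pow_pos P.zpos
  have hlt : P.z ^ P.s0 < l := by
    rw [hl]
    unfold lev
    apply Nat.pow_lt_pow_right (by omega)
    omega
  -- injection of the block into a cell
  have hinj : ∀ x : Fin l, (φ ⟨β * l + x.val, by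
      have := x.2; rw [Nat.add_mul, one_mul] at hnl; omega⟩).val - p * P.z ^ P.s0 < P.z ^ P.s0 := by
    intro x
    have hx := x.2
    have h1 := hp ⟨β * l + x.val, by rw [Nat.add_mul, one_mul] at hnl; omega⟩ (by
      simp only
      rw [mul_comm, Nat.mul_add_div hlpos, Nat.div_eq_of_lt hx, add_zero])
    have h2 := Nat.lt_div_mul_add hzs (a := (φ ⟨β * l + x.val, by
      rw [Nat.add_mul, one_mul] at hnl; omega⟩).val)
    rw [h1] at h2
    omega
  have hge : ∀ x : Fin l, p * P.z ^ P.s0 ≤ (φ ⟨β * l + x.val, by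
      have := x.2; rw [Nat.add_mul, one_mul] at hnl; omega⟩).val := by
    intro x
    have hx := x.2
    have h1 := hp ⟨β * l + x.val, by rw [Nat.add_mul, one_mul] at hnl; omega⟩ (by
      simp only
      rw [mul_comm, Nat.mul_add_div hlpos, Nat.div_eq_of_lt hx, add_zero])
    rw [← h1]
    exact Nat.div_mul_le_self _ _
  have hcard := Fintype.card_le_of_injective (fun x : Fin l => (⟨_, hinj x⟩ : Fin (P.z ^ P.s0))) (by
    intro x x' h
    simp only [Fin.mk.injEq] at h
    have h1 := hge x
    have h2 := hge x'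
    have h3 : (φ ⟨β * l + x.val, by
      have := x.2; rw [Nat.add_mul, one_mul] at hnl; omega⟩) = (φ ⟨β * l + x'.val, by
      have := x'.2; rw [Nat.add_mul, one_mul] at hnl; omega⟩) := by
      apply Fin.ext
      omega
    have h4 := hφ.injective h3
    simp only [Fin.mk.injEq] at h4
    apply Fin.ext
    omega)
  rw [Fintype.card_fin, Fintype.card_fin] at hcard
  omega

/-- decoding of a monotone map into the children of `p` -/
def dec {n W : ℕ} (p : Fin P.N) (c : Fin W → Fin (n + 1)) (r : ℕ) : Fin P.N :=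
  ⟨(p.val * W + (univ.filter (fun i => (c i).val ≤ r)).card) % P.N, Nat.mod_lt _ P.Npos⟩

theorem exists_code {n : ℕ} (φ : Fin n → Fin P.N) (hφ : StrictMono φ) (a : ℕ) (p : ℕ)
    (hpN : p < P.N) : ∃ c : Fin (P.z ^ P.w) → Fin (n + 1),
      ∀ r : Fin n, (φ r).val / P.z ^ P.σ (a + 1) = p →
        P.dec ⟨p, hpN⟩ c r.val = P.cell a (φ r) := by
  classical
  set W := P.z ^ P.w with hW
  have hWpos : 0 < W := Nat.pow_pos P.zpos
  set cnt : ℕ → ℕ := fun i => (univ.filter (fun r : Fin n =>
    (φ r).val / P.z ^ P.σ a ≤ p * W + i)).card with hcnt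
  have hcntn : ∀ i, cnt i < n + 1 := by
    intro i
    have := card_le_univ (univ.filter (fun r : Fin n => (φ r).val / P.z ^ P.σ a ≤ p * W + i))
    rw [Fintype.card_fin] at this
    rw [hcnt]
    simp only
    omega
  refine ⟨fun i => ⟨cnt i.val, hcntn i.val⟩, ?_⟩
  intro r hr
  have hmono : ∀ r r' : Fin n, r ≤ r' → (φ r).val / P.z ^ P.σ a ≤ (φ r').val / P.z ^ P.σ a :=
    fun r r' h => Nat.div_le_div_right (hφ.monotone h)
  -- cnt i ≤ r iff the cell of r is beyond
  have hiff : ∀ i, cnt i ≤ r.val ↔ p * W + i < (φ r).val / P.z ^ P.σ a := by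
    intro i
    constructor
    · intro h
      by_contra h1
      push Not at h1
      have h2 : Finset.Iic r ⊆ univ.filter (fun r : Fin n =>
          (φ r).val / P.z ^ P.σ a ≤ p * W + i) := by
        intro r' hr'
        rw [Finset.mem_Iic] at hr'
        rw [mem_filter]
        exact ⟨mem_univ _, (hmono r' r hr').trans h1⟩
      have h3 := card_le_card h2
      rw [Fin.card_Iic] at h3
      rw [hcnt] at h
      simp only at h
      omega
    · intro h
      have h2 : univ.filter (fun r : Fin n => (φ r).val / P.z ^ P.σ a ≤ p * W + i) ⊆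
          Finset.Iio r := by
        intro r' hr'
        rw [mem_filter] at hr'
        rw [Finset.mem_Iio]
        by_contra h3
        push Not at h3
        have := hmono r r' h3
        omega
      have h3 := card_le_card h2
      rw [Fin.card_Iio] at h3
      exact h3
  -- the cell
  have hσ : P.σ (a + 1) = P.σ a + P.w := by unfold σ; ring
  have hcell : (φ r).val / P.z ^ P.σ a / W = p := by
    rw [hW, Nat.div_div_eq_div_mul, ← pow_add, ← hσ]
    exact hr
  have h1 : p * W ≤ (φ r).val / P.z ^ P.σ a := by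
    rw [← hcell]
    exact Nat.div_mul_le_self _ _
  have h2 : (φ r).val / P.z ^ P.σ a < p * W + W := by
    have := Nat.lt_div_mul_add hWpos (a := (φ r).val / P.z ^ P.σ a)
    rw [hcell] at this
    exact this
  have h3 : (univ.filter (fun i : Fin W => cnt i.val ≤ r.val)).card =
      (φ r).val / P.z ^ P.σ a - p * W := by
    have h4 : univ.filter (fun i : Fin W => cnt i.val ≤ r.val) =
        univ.filter (fun i : Fin W => i.val < (φ r).val / P.z ^ P.σ a - p * W) := by
      apply Finset.filter_congr
      intro i _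
      rw [hiff]
      omega
    rw [h4, Fin.card_filter_val_lt]
    omega
  apply Fin.ext
  unfold dec cell
  simp only
  rw [h3]
  have h5 : p * W + ((φ r).val / P.z ^ P.σ a - p * W) = (φ r).val / P.z ^ P.σ a := by omega
  rw [h5]
  exact Nat.mod_eq_of_lt (lt_of_le_of_lt (Nat.div_le_self _ _) (φ r).2)

end Dat

end Pool.Agent.H46.TS
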