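import Pool.Agent.H46.TS.Descent
import Pool.Agent.H68.RS.Main

/-! The random matrix and the union bound over the coarse data of an embedding. -/

namespace Pool.Agent.H46.TS

open Finset Pool.Agent.H46.SR Pool.Agent.H68.RS

/-- sample space of one group -/
abbrev GS (n Lm : ℕ) : Type :=
  (Fin n × Fin n) × ((Fin Lm × Bool → Fin n) × (Fin Lm × Bool → Fin n))

/-- restriction of the index set -/
def rs {L Lm : ℕ} (h : L ≤ Lm) (i : Fin L × Bool) : Fin Lm × Bool := (Fin.castLE h i.1, i.2)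

theorem rs_inj {L Lm : ℕ} (h : L ≤ Lm) : Function.Injective (rs h) := by
  rintro ⟨a, b⟩ ⟨a', b'⟩ hh
  unfold rs at hh
  simp only [Prod.mk.injEq] at hh
  have := Fin.castLE_injective h hh.1
  rw [this, hh.2]

theorem av_block' {n q l β : ℕ} (hn : n = q * l) (hl : 0 < l) (hβ : β < q) :
    av (fun X : Fin n => ind (X.val / l = β)) = 1 / (q : ℝ) := by
  subst hn
  exact av_block hl hβ

namespace Dat

variable (P : Dat)

/-- the event that a group lies in the given blocks and is stuck -/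
def EV {n Lm L : ℕ} (hLm : L ≤ Lm) (ω : P.Sp) (τ : P.T) (t : ZMod 2) (l l' β β' : ℕ)
    (h h' : Fin n → Fin P.N) (s : GS n Lm) : Prop :=
  s.1.1.val / l = β ∧ s.1.2.val / l' = β' ∧
    P.Stuck ω τ t (fun i : Fin L × Bool => h (s.2.1 (rs hLm i))) (fun i => h' (s.2.2 (rs hLm i)))

theorem av_EV {n y : ℕ} (hn0 : 0 < n) (hy : 0 < y) {Lf : ℕ → ℕ} {ω : P.Sp} (hω : P.Good ω Lf y)
    (τ : P.T) (t : ZMod 2) {Lm : ℕ} (hLm : Lf (τ.1.val + τ.2.val) ≤ Lm) {q l q' l' β β' : ℕ}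
    (hn : n = q * l) (hn' : n = q' * l') (hl : 0 < l) (hl' : 0 < l') (hβ : β < q) (hβ' : β' < q')
    (h h' : Fin n → Fin P.N) (hs : ∀ Y Y', P.Sib (h Y) (h Y'))
    (hs' : ∀ Y Y', P.Sib (h' Y) (h' Y')) {ρ : ℝ}
    (hρ : ∀ v, av (fun Y : Fin n => ind (h Y = v)) ≤ ρ)
    (hρ' : ∀ v, av (fun Y : Fin n => ind (h' Y = v)) ≤ ρ)
    (hsm : (2 * (Lf (τ.1.val + τ.2.val) : ℝ) * y) ^ 2 * ρ ≤ 1 / 4) :
    (1 / (q : ℝ)) * (1 / (q' : ℝ)) * (1 / (2 * (y : ℝ) ^ 2)) ≤
      av (fun s : GS n Lm => ind (P.EV hLm ω τ t l l' β β' h h' s)) := by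
  classical
  have : Nonempty (Fin n) := ⟨⟨0, hn0⟩⟩
  obtain ⟨fX, hfX⟩ : ∃ fX : Fin n × Fin n → ℝ, ∀ X, fX X =
      ind (X.1.val / l = β) * ind (X.2.val / l' = β') := ⟨_, fun _ => rfl⟩
  obtain ⟨gY, hgY⟩ : ∃ gY : (Fin Lm × Bool → Fin n) × (Fin Lm × Bool → Fin n) → ℝ, ∀ Y, gY Y =
      ind (P.Stuck ω τ t (fun i : Fin (Lf (τ.1.val + τ.2.val)) × Bool => h (Y.1 (rs hLm i)))
        (fun i => h' (Y.2 (rs hLm i)))) := ⟨_, fun _ => rfl⟩
  have h1 : av (fun s : GS n Lm => ind (P.EV hLm ω τ t l l' β β' h h' s)) = av fX * av gY := by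
    rw [← av_prod_mul fX gY]
    apply av_congr
    intro s
    unfold EV
    rw [ind_and, ind_and, hfX, hgY]
    ring
  have h2 : av fX = (1 / (q : ℝ)) * (1 / (q' : ℝ)) := by
    rw [av_congr hfX, av_prod_mul (fun X : Fin n => ind (X.val / l = β))
      (fun X : Fin n => ind (X.val / l' = β')), av_block' hn hl hβ, av_block' hn' hl' hβ']
  rw [h1, h2]
  apply mul_le_mul_of_nonneg_left _ (by positivity)
  refine (P.av_group hn0 hy hω τ t h h' hs hs' hρ hρ' hsm).trans (le_of_eq ?_)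
  rw [av_congr hgY]
  rw [av_prod, av_prod]
  have e1 : ∀ a : Fin Lm × Bool → Fin n,
      av (fun b : Fin Lm × Bool → Fin n => ind (P.Stuck ω τ t
        (fun i : Fin (Lf (τ.1.val + τ.2.val)) × Bool => h (a (rs hLm i)))
        (fun i => h' (b (rs hLm i))))) =
      av (fun b : Fin (Lf (τ.1.val + τ.2.val)) × Bool → Fin n => ind (P.Stuck ω τ t
        (fun i => h (a (rs hLm i))) (fun i => h' (b i)))) := by
    intro a
    exact av_comp_inj (rs hLm) (rs_inj hLm)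
      (fun b : Fin (Lf (τ.1.val + τ.2.val)) × Bool → Fin n => ind (P.Stuck ω τ t
        (fun i => h (a (rs hLm i))) (fun i => h' (b i))))
  symm
  refine (av_congr e1).trans ?_
  exact av_comp_inj (rs hLm) (rs_inj hLm)
      (fun a : Fin (Lf (τ.1.val + τ.2.val)) × Bool → Fin n =>
        av (fun b : Fin (Lf (τ.1.val + τ.2.val)) × Bool → Fin n => ind (P.Stuck ω τ t
        (fun i => h (a i)) (fun i => h' (b i)))))

/-- coarse data -/
abbrev Th (n : ℕ) : Type := (P.T × ZMod 2) × ((Fin n × Fin n) × ((Fin P.N × Fin P.N) ×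
  ((Fin (P.z ^ P.w) → Fin (n + 1)) × (Fin (P.z ^ P.w) → Fin (n + 1)))))

/-- the map of rows to cells given by the data -/
def hr (m k1 : ℕ) {n : ℕ} (θ : P.Th n) (Y : Fin n) : Fin P.N :=
  P.dec θ.2.2.1.1 θ.2.2.2.1 (θ.2.1.1.val * P.lev m k1 (P.K - θ.1.1.1.val) +
    Y.val % P.lev m k1 (P.K - θ.1.1.1.val))

def hc (m k1 : ℕ) {n : ℕ} (θ : P.Th n) (Y : Fin n) : Fin P.N :=
  P.dec θ.2.2.1.2 θ.2.2.2.2 (θ.2.1.2.val * P.lev m k1 (P.K - θ.1.1.2.val) +
    Y.val % P.lev m k1 (P.K - θ.1.1.2.val))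

/-- validity of the data -/
def Val (m k1 : ℕ) {n : ℕ} (θ : P.Th n) : Prop :=
  θ.2.1.1.val < P.z ^ (2 * k1 * (P.K - θ.1.1.1.val)) ∧
  θ.2.1.2.val < P.z ^ (2 * k1 * (P.K - θ.1.1.2.val)) ∧
  (∀ Y Y', P.Sib (P.hr m k1 θ Y) (P.hr m k1 θ Y')) ∧
  (∀ Y Y', P.Sib (P.hc m k1 θ Y) (P.hc m k1 θ Y')) ∧
  (∀ v, av (fun Y : Fin n => ind (P.hr m k1 θ Y = v)) ≤ 1 / (P.z : ℝ) ^ k1) ∧
  (∀ v, av (fun Y : Fin n => ind (P.hc m k1 θ Y = v)) ≤ 1 / (P.z : ℝ) ^ k1)

/-- the event for the data and a group -/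
def EVθ (m k1 : ℕ) {n Lm : ℕ} {Lf : ℕ → ℕ} (hLm : ∀ s, s ≤ 2 * P.K → Lf s ≤ Lm) (ω : P.Sp)
    (θ : P.Th n) (s : GS n Lm) : Prop :=
  P.EV (L := Lf (θ.1.1.1.val + θ.1.1.2.val)) (hLm _ (by
    have := θ.1.1.1.2
    have := θ.1.1.2.2
    omega)) ω θ.1.1 θ.1.2 (P.lev m k1 (P.K - θ.1.1.1.val)) (P.lev m k1 (P.K - θ.1.1.2.val))
    θ.2.1.1.val θ.2.1.2.val (P.hr m k1 θ) (P.hc m k1 θ) s

/-- the number of coarse data -/
theorem card_Th (n : ℕ) : (Fintype.card (P.Th n) : ℝ) =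
    2 * ((P.K + 1 : ℕ) : ℝ) ^ 2 * (n : ℝ) ^ 2 * (P.N : ℝ) ^ 2 *
      ((n : ℝ) + 1) ^ (2 * P.z ^ P.w) := by
  simp only [Th, T, Fintype.card_prod, Fintype.card_fun, Fintype.card_fin, ZMod.card]
  push_cast
  ring

/-- probability of failure for given data -/
theorem av_fail {m k1 n y G Lm : ℕ} (hn : n = P.z ^ m) (hm : 2 * k1 * P.K ≤ m) (hy : 0 < y)
    {Lf : ℕ → ℕ} (hLm : ∀ s, s ≤ 2 * P.K → Lf s ≤ Lm) {ω : P.Sp} (hω : P.Good ω Lf y)
    (hsm : ∀ s, s ≤ 2 * P.K → (2 * (Lf s : ℝ) * y) ^ 2 * (1 / (P.z : ℝ) ^ k1) ≤ 1 / 4)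
    (θ : P.Th n) :
    av (fun γ : P.T × Fin G → GS n Lm =>
      ind (P.Val m k1 θ ∧ ∀ g : Fin G, ¬ P.EVθ m k1 hLm ω θ (γ (θ.1.1, g)))) ≤
      (1 - 1 / ((P.z : ℝ) ^ (4 * k1 * P.K) * (2 * (y : ℝ) ^ 2))) ^ G := by
  classical
  have hz0 : (0 : ℝ) < P.z := by exact_mod_cast P.zpos
  have hz1 : (1 : ℝ) ≤ P.z := by
    have := P.hz
    have : 1 ≤ P.z := by omega
    exact_mod_cast this
  have hn0 : 0 < n := by rw [hn]; exact Nat.pow_pos P.zpos
  have : Nonempty (Fin n) := ⟨⟨0, hn0⟩⟩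
  have hy1 : (1 : ℝ) ≤ y := by exact_mod_cast hy
  have hδ1 : 1 / ((P.z : ℝ) ^ (4 * k1 * P.K) * (2 * (y : ℝ) ^ 2)) ≤ 1 := by
    rw [div_le_one (by positivity)]
    have h1 : (1 : ℝ) ≤ (P.z : ℝ) ^ (4 * k1 * P.K) := one_le_pow₀ hz1
    have h2 : (1 : ℝ) ≤ (y : ℝ) ^ 2 := one_le_pow₀ hy1
    nlinarith
  by_cases hval : P.Val m k1 θ
  · obtain ⟨hv1, hv2, hv3, hv4, hv5, hv6⟩ := hval
    have hsK : θ.1.1.1.val + θ.1.1.2.val ≤ 2 * P.K := by
      have := θ.1.1.1.2
      have := θ.1.1.2.2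
      omega
    have hj1 : 2 * k1 * (P.K - θ.1.1.1.val) ≤ 2 * k1 * P.K := Nat.mul_le_mul_left _ (Nat.sub_le _ _)
    have hj2 : 2 * k1 * (P.K - θ.1.1.2.val) ≤ 2 * k1 * P.K := Nat.mul_le_mul_left _ (Nat.sub_le _ _)
    have hEV := P.av_EV hn0 hy hω θ.1.1 θ.1.2 (Lm := Lm) (hLm _ hsK)
      (hn.trans (P.lev_mul (m := m) (k1 := k1) (j := P.K - θ.1.1.1.val) (by omega)))
      (hn.trans (P.lev_mul (m := m) (k1 := k1) (j := P.K - θ.1.1.2.val) (by omega)))
      (P.lev_pos _ _ _) (P.lev_pos _ _ _) hv1 hv2 (P.hr m k1 θ) (P.hc m k1 θ) hv3 hv4 hv5 hv6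
      (hsm _ hsK)
    obtain ⟨f, hf⟩ : ∃ f : Fin G → GS n Lm → ℝ, ∀ g s, f g s = ind (¬ P.EVθ m k1 hLm ω θ s) :=
      ⟨_, fun _ _ => rfl⟩
    have hinj : Function.Injective (fun g : Fin G => ((θ.1.1, g) : P.T × Fin G)) := by
      intro g g' h
      exact (Prod.mk.inj h).2
    have h1 : ∀ g, av (f g) ≤ 1 - 1 / ((P.z : ℝ) ^ (4 * k1 * P.K) * (2 * (y : ℝ) ^ 2)) := by
      intro g
      have h2 : av (f g) = 1 + (-1) * av (fun s : GS n Lm => ind (P.EVθ m k1 hLm ω θ s)) := by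
        rw [← av_mul_left, ← av_const (Ω := GS n Lm) (1 : ℝ), ← av_add]
        apply av_congr
        intro s
        rw [hf, ind_not, av_const]
        ring
      rw [h2]
      have h3 : 1 / ((P.z : ℝ) ^ (4 * k1 * P.K) * (2 * (y : ℝ) ^ 2)) ≤
          av (fun s : GS n Lm => ind (P.EVθ m k1 hLm ω θ s)) := by
        refine le_trans ?_ hEV
        push_cast
        rw [one_div_mul_one_div, ← pow_add, one_div_mul_one_div]
        apply one_div_le_one_div_of_le (by positivity)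
        apply mul_le_mul_of_nonneg_right _ (by positivity)
        apply pow_le_pow_right₀ hz1
        have : 4 * k1 * P.K = 2 * k1 * P.K + 2 * k1 * P.K := by ring
        omega
      linarith
    calc _ ≤ av (fun γ : P.T × Fin G → GS n Lm => ∏ g, f g (γ (θ.1.1, g))) := by
          apply av_mono
          intro γ
          have : ∏ g, f g (γ (θ.1.1, g)) =
              ind (∀ g : Fin G, ¬ P.EVθ m k1 hLm ω θ (γ (θ.1.1, g))) := by
            rw [ind_forall]
            exact Finset.prod_congr rfl (fun g _ => hf g _)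
          rw [this]
          exact ind_mono (fun h => h.2)
      _ = ∏ g, av (f g) := av_coords (fun g : Fin G => ((θ.1.1, g) : P.T × Fin G)) hinj f
      _ ≤ ∏ _g : Fin G, (1 - 1 / ((P.z : ℝ) ^ (4 * k1 * P.K) * (2 * (y : ℝ) ^ 2))) := by
          apply Finset.prod_le_prod
          · intro g _
            apply av_nonneg
            intro s
            rw [hf]
            exact ind_nonneg _
          · intro g _
            exact h1 g
      _ = _ := by rw [Finset.prod_const, Finset.card_univ, Fintype.card_fin]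
  · have : ∀ γ : P.T × Fin G → GS n Lm,
        ind (P.Val m k1 θ ∧ ∀ g : Fin G, ¬ P.EVθ m k1 hLm ω θ (γ (θ.1.1, g))) = 0 := by
      intro γ
      exact ind_neg (fun h => hval h.1)
    simp only [this]
    rw [av_const]
    exact pow_nonneg (by linarith) _

/-- rows and columns of a group -/
def row (m k1 : ℕ) {n Lm : ℕ} (τ : P.T) (s : GS n Lm) (i : Fin Lm × Bool) : ℕ :=
  pl (P.lev m k1 (P.K - τ.1.val)) s.1.1.val (s.2.1 i).val

def clm (m k1 : ℕ) {n Lm : ℕ} (τ : P.T) (s : GS n Lm) (i : Fin Lm × Bool) : ℕ :=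
  pl (P.lev m k1 (P.K - τ.2.val)) s.1.2.val (s.2.2 i).val

/-- the matrix -/
def Mt (m k1 : ℕ) {n Lm G : ℕ} (n' : ℕ) (γ : P.T × Fin G → GS n Lm) (r c : Fin n') : Prop :=
  ∃ (τ : P.T) (g : Fin G) (i j : Fin Lm × Bool), r.val = P.row m k1 τ (γ (τ, g)) i ∧
    c.val = P.clm m k1 τ (γ (τ, g)) j

/-- the colouring -/
def chi (ω : P.Sp) (x y : Fin P.N) : Bool := decide (P.col ω x y = 1)

theorem col_of_chi {ω : P.Sp} {x y : Fin P.N} {b : Bool} (h : P.chi ω x y = b) :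
    P.col ω x y = if b then 1 else 0 := by
  unfold chi at h
  revert h
  generalize P.col ω x y = v
  revert v b
  decide

theorem pl_lt {n q l : ℕ} (hn : n = q * l) (hl : 0 < l) {X : ℕ} (hX : X < n) (Y : ℕ) :
    pl l X Y < n := by
  unfold pl
  have h1 : X / l < q := by
    rw [Nat.div_lt_iff_lt_mul hl]
    omega
  have h2 : (X / l + 1) * l ≤ q * l := Nat.mul_le_mul_right _ h1
  have h3 : Y % l < l := Nat.mod_lt _ hl
  rw [Nat.add_mul, one_mul] at h2
  omega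

/-- one side of the data of an embedding -/
theorem side {m k1 n : ℕ} (hn : n = P.z ^ m) (hk1 : 1 ≤ k1)
    (hs0 : P.s0 + 2 * k1 * (P.K + 1) < m) (φ : Fin n → Fin P.N) (hφ : StrictMono φ) :
    ∃ (a : Fin (P.K + 1)) (β : Fin n) (p : Fin P.N) (c : Fin (P.z ^ P.w) → Fin (n + 1)),
      β.val < P.z ^ (2 * k1 * (P.K - a.val)) ∧
      (∀ r : Fin n, r.val / P.lev m k1 (P.K - a.val) = β.val →
        P.dec p c r.val = P.cell a.val (φ r)) ∧
      (∀ Y Y' : Fin n, P.Sib (P.dec p c (β.val * P.lev m k1 (P.K - a.val) +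
        Y.val % P.lev m k1 (P.K - a.val))) (P.dec p c (β.val * P.lev m k1 (P.K - a.val) +
        Y'.val % P.lev m k1 (P.K - a.val)))) ∧
      (∀ v, av (fun Y : Fin n => ind (P.dec p c (β.val * P.lev m k1 (P.K - a.val) +
        Y.val % P.lev m k1 (P.K - a.val)) = v)) ≤ 1 / (P.z : ℝ) ^ k1) := by
  classical
  obtain ⟨j, hj, β, p, hβ, hp, hv⟩ := P.descent hn hk1 hs0 φ hφ
  have hz := P.zpos
  have hzk : 0 < P.z ^ k1 := Nat.pow_pos hz
  have h2k : 2 * k1 * j ≤ m := by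
    have : 2 * k1 * j ≤ 2 * k1 * (P.K + 1) := Nat.mul_le_mul_left _ (by omega)
    omega
  have hmul : n = P.z ^ (2 * k1 * j) * P.lev m k1 j := hn.trans (P.lev_mul h2k)
  set l := P.lev m k1 j with hl
  have hlpos : 0 < l := P.lev_pos _ _ _
  have hβn : β < n := by
    rw [hmul]
    calc β < P.z ^ (2 * k1 * j) := hβ
      _ ≤ P.z ^ (2 * k1 * j) * l := Nat.le_mul_of_pos_right _ hlpos
  have hblk : ∀ x < l, β * l + x < n := by
    intro x hx
    rw [hmul]
    have : (β + 1) * l ≤ P.z ^ (2 * k1 * j) * l := Nat.mul_le_mul_right _ hβ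
    rw [Nat.add_mul, one_mul] at this
    omega
  have hdiv : ∀ x < l, (β * l + x) / l = β := by
    intro x hx
    rw [mul_comm, Nat.mul_add_div hlpos, Nat.div_eq_of_lt hx, add_zero]
  -- the parent cell
  have hpN : p < P.N := by
    have h1 := hp ⟨β * l + 0, hblk 0 hlpos⟩ (hdiv 0 hlpos)
    rw [← h1]
    exact lt_of_le_of_lt (Nat.div_le_self _ _) (φ _).2
  have hKj : P.K - (P.K - j) = j := by omega
  have hKj1 : P.K + 1 - j = (P.K - j) + 1 := by omega
  rw [hKj1] at hp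
  obtain ⟨c, hc⟩ := P.exists_code φ hφ (P.K - j) p hpN
  refine ⟨⟨P.K - j, by omega⟩, ⟨β, hβn⟩, ⟨p, hpN⟩, c, ?_, ?_, ?_, ?_⟩
  · simp only [hKj]
    exact hβ
  · intro r hr
    simp only [hKj] at hr ⊢
    exact hc r (hp r hr)
  · intro Y Y'
    simp only [hKj]
    have key : ∀ Y : Fin n, (P.dec ⟨p, hpN⟩ c (β * l + Y.val % l)).val / P.z ^ P.w = p := by
      intro Y
      have hY : Y.val % l < l := Nat.mod_lt _ hlpos
      have h1 := hp ⟨β * l + Y.val % l, hblk _ hY⟩ (hdiv _ hY)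
      have h2 := hc ⟨β * l + Y.val % l, hblk _ hY⟩ h1
      simp only at h2
      rw [h2]
      unfold cell
      simp only
      rw [Nat.div_div_eq_div_mul, ← pow_add]
      have : P.σ (P.K - j) + P.w = P.σ (P.K - j + 1) := by unfold σ; ring
      rw [this]
      exact h1
    unfold Sib
    rw [key, key]
  · intro v
    simp only [hKj]
    have h1 : av (fun Y : Fin n => ind (P.dec ⟨p, hpN⟩ c (β * l + Y.val % l) = v)) =
        av (fun x : Fin l => ind (P.dec ⟨p, hpN⟩ c (β * l + x.val) = v)) := by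
      have h2 := av_fun_mod (q := P.z ^ (2 * k1 * j)) (l := l) (Nat.pow_pos hz)
        (fun x => ind (P.dec ⟨p, hpN⟩ c (β * l + x) = v))
      rw [← h2]
      have : ∀ (N' : ℕ) (hN' : n = N') , av (fun Y : Fin n =>
          ind (P.dec ⟨p, hpN⟩ c (β * l + Y.val % l) = v)) = av (fun Y : Fin N' =>
          ind (P.dec ⟨p, hpN⟩ c (β * l + Y.val % l) = v)) := by
        intro N' hN'
        rw [← av_equiv (finCongr hN')]
        rfl
      exact this _ hmul
    rw [h1]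
    unfold av
    rw [Fintype.card_fin, div_le_div_iff₀ (by exact_mod_cast hlpos)
      (by exact_mod_cast hzk), one_mul]
    have h2 : ∑ x : Fin l, ind (P.dec ⟨p, hpN⟩ c (β * l + x.val) = v) =
        ((univ.filter (fun x : Fin l => P.dec ⟨p, hpN⟩ c (β * l + x.val) = v)).card : ℝ) := by
      rw [Finset.card_filter]
      push_cast
      apply Finset.sum_congr rfl
      intro x _
      by_cases h : P.dec ⟨p, hpN⟩ c (β * l + x.val) = v
      · rw [ind_pos h, if_pos h]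
      · rw [ind_neg h, if_neg h]
    have h3 : (univ.filter (fun x : Fin l => P.dec ⟨p, hpN⟩ c (β * l + x.val) = v)).card ≤
        (univ.filter (fun r : Fin n => r.val / l = β ∧
          (φ r).val / P.z ^ P.σ (P.K - j) = v.val)).card := by
      apply Finset.card_le_card_of_injOn (fun x : Fin l => (⟨β * l + x.val, hblk _ x.2⟩ : Fin n))
      · intro x hx
        simp only [coe_filter, mem_univ, true_and, Set.mem_ofPred_eq] at hx ⊢
        refine ⟨hdiv _ x.2, ?_⟩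
        have h4 := hc ⟨β * l + x.val, hblk _ x.2⟩ (hp _ (hdiv _ x.2))
        simp only at h4
        rw [hx] at h4
        rw [h4]
        rfl
      · intro x _ x' _ hxx
        simp only [Fin.mk.injEq] at hxx
        apply Fin.ext
        omega
    have h4 := hv v.val
    rw [h2]
    have h5 : (univ.filter (fun x : Fin l => P.dec ⟨p, hpN⟩ c (β * l + x.val) = v)).card *
        P.z ^ k1 ≤ l := (Nat.mul_le_mul_right _ h3).trans h4
    exact_mod_cast h5

/-- an embedding gives valid data with no stuck group -/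
theorem copy_imp {m k1 n n' Lm G : ℕ} (hn : n = P.z ^ m) (hk1 : 1 ≤ k1)
    (hs0 : P.s0 + 2 * k1 * (P.K + 1) < m) (hnn : n ≤ n') {Lf : ℕ → ℕ}
    (hLm : ∀ s, s ≤ 2 * P.K → Lf s ≤ Lm) (ω : P.Sp) (γ : P.T × Fin G → GS n Lm)
    (hcopy : HasMonoCopy (P.Mt m k1 n' γ) (P.chi ω)) :
    ∃ θ : P.Th n, P.Val m k1 θ ∧ ∀ g : Fin G, ¬ P.EVθ m k1 hLm ω θ (γ (θ.1.1, g)) := by
  obtain ⟨b, f, g, hf, hg, hfg⟩ := hcopy
  set φ : Fin n → Fin P.N := fun r => f (Fin.castLE hnn r) with hφ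
  set ψ : Fin n → Fin P.N := fun r => g (Fin.castLE hnn r) with hψ
  have hφm : StrictMono φ := fun i j hij => hf hij
  have hψm : StrictMono ψ := fun i j hij => hg hij
  obtain ⟨a, β, p, c, h1, h2, h3, h4⟩ := P.side hn hk1 hs0 φ hφm
  obtain ⟨a', β', p', c', h1', h2', h3', h4'⟩ := P.side hn hk1 hs0 ψ hψm
  refine ⟨(((a, a'), if b then 1 else 0), ((β, β'), ((p, p'), (c, c')))),
    ⟨h1, h1', h3, h3', h4, h4'⟩, ?_⟩
  intro gi hEV
  obtain ⟨hX, hX', hst⟩ := hEV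
  set s := γ ((a, a'), gi) with hs
  simp only at hX hX' hst
  have hz := P.zpos
  have hja : 2 * k1 * (P.K - a.val) ≤ m := by
    have : 2 * k1 * (P.K - a.val) ≤ 2 * k1 * (P.K + 1) := Nat.mul_le_mul_left _ (by omega)
    omega
  have hja' : 2 * k1 * (P.K - a'.val) ≤ m := by
    have : 2 * k1 * (P.K - a'.val) ≤ 2 * k1 * (P.K + 1) := Nat.mul_le_mul_left _ (by omega)
    omega
  have hrow : ∀ i, P.row m k1 (a, a') s i < n := fun i =>
    pl_lt (hn.trans (P.lev_mul hja)) (P.lev_pos _ _ _) s.1.1.2 _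
  have hclm : ∀ i, P.clm m k1 (a, a') s i < n := fun i =>
    pl_lt (hn.trans (P.lev_mul hja')) (P.lev_pos _ _ _) s.1.2.2 _
  have hrow' : ∀ i, P.row m k1 (a, a') s i = β.val * P.lev m k1 (P.K - a.val) +
      (s.2.1 i).val % P.lev m k1 (P.K - a.val) := by
    intro i
    unfold row pl
    simp only
    rw [hX]
  have hclm' : ∀ i, P.clm m k1 (a, a') s i = β'.val * P.lev m k1 (P.K - a'.val) +
      (s.2.2 i).val % P.lev m k1 (P.K - a'.val) := by
    intro i
    unfold clm pl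
    simp only
    rw [hX']
  obtain ⟨i, j, hij⟩ := hst (fun i => φ ⟨_, hrow (rs (hLm _ (by
      have := a.2
      have := a'.2
      omega)) i)⟩) (fun i => ψ ⟨_, hclm (rs (hLm _ (by
      have := a.2
      have := a'.2
      omega)) i)⟩)
    (by
      intro i
      rw [← h2 _ (by
        simp only
        rw [show P.row m k1 (a, a') s (rs (hLm _ (by
          have := a.2
          have := a'.2
          omega)) i) = _ from rfl]
        unfold row
        rw [pl_div (P.lev_pos _ _ _)]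
        exact hX)]
      simp only
      unfold hr
      simp only
      rw [hrow'])
    (by
      intro i
      rw [← h2' _ (by
        simp only
        rw [show P.clm m k1 (a, a') s (rs (hLm _ (by
          have := a.2
          have := a'.2
          omega)) i) = _ from rfl]
        unfold clm
        rw [pl_div (P.lev_pos _ _ _)]
        exact hX')]
      simp only
      unfold hc
      simp only
      rw [hclm'])
  apply hij
  have hM := hfg (Fin.castLE hnn ⟨_, hrow (rs (hLm _ (by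
      have := a.2
      have := a'.2
      omega)) i)⟩) (Fin.castLE hnn ⟨_, hclm (rs (hLm _ (by
      have := a.2
      have := a'.2
      omega)) j)⟩) ⟨(a, a'), gi, _, _, rfl, rfl⟩
  exact P.col_of_chi hM

end Dat

end Pool.Agent.H46.TS
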