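import Pool.Agent.H46.TS.Param
import Pool.Agent.H46.SR.Final

/-! The lower bound for matrices with bounded rows and columns. -/

namespace Pool.Agent.H46.TS

open Finset Pool.Agent.H46.SR Pool.Agent.H68.RS Filter Topology

variable {K : ℕ} (R : Prm K)

/-- the degree of the matrices -/
def Prm.deg : ℕ := (R.m + 1) * (2 * Lf K (2 * K))

theorem Prm.m_ge : 2 ≤ R.m := by
  have := R.hw
  omega

theorem Prm.lower_z {z : ℕ} (hz : 2 ≤ z)
    (h1 : ∀ s, s ≤ 2 * K → 2 * (4 * ((K + 1 : ℕ) : ℝ) ^ 2) ^ (Lf K s ^ 2) ≤ z)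
    (h2 : ∀ s, s ≤ 2 * K → (4 * (Lf K s : ℝ) * R.E) * Real.log z +
      Real.log (4 * ((K + 1 : ℕ) : ℝ) ^ 2) ≤ z / 2 ^ (4 * Lf K s ^ 2 + 1))
    (h3 : 16 * (Lf K (2 * K) : ℝ) ^ 2 ≤ z)
    (h4 : 4 * (((K + 1 : ℕ) : ℝ) ^ 2 * (2 * (Lf K (2 * K) : ℝ))) ^ (R.m + 1) ≤ z)
    (h5 : (2 * R.m + 2 * R.E + 2 * (R.m + 1) : ℝ) * Real.log z +
      Real.log (8 * ((K + 1 : ℕ) : ℝ) ^ 2) ≤ z / 2)
    {n' : ℕ} (hn : z ^ R.m ≤ n') :
    ∃ M : Fin n' → Fin n' → Prop, (∀ r, {c | M r c}.ncard ≤ R.deg) ∧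
      (∀ c, {r | M r c}.ncard ≤ R.deg) ∧ z ^ R.E < Pool.Agent.H68.RS.R M := by
  have hz0 : (0 : ℝ) < z := by
    have : 0 < z := by omega
    exact_mod_cast this
  have hz1 : (1 : ℝ) ≤ z := by
    have : 1 ≤ z := by omega
    exact_mod_cast this
  have hz2 : (2 : ℝ) ≤ z := by exact_mod_cast hz
  obtain ⟨ω, hω⟩ := R.good hz h1 h2
  have hm2 := R.m_ge
  have hk1 : 1 ≤ R.k1 := by rw [R.hk1]; omega
  obtain ⟨M, hM1, hM2, hM3⟩ := (R.dat z hz).exists_matrix (m := R.m) (k1 := R.k1)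
    (n := z ^ R.m) (n' := n') (y := z ^ R.k2) (G := z ^ (R.m - 1)) (Lm := Lf K (2 * K))
    (t := R.m + 1) rfl hk1 (by
      show R.s0 + 2 * R.k1 * (K + 1) < R.m
      have := R.hs0
      omega) hn (by positivity) (by omega) (Lf := Lf K)
    (fun s hs => Lf_mono K hs) hω (by
      intro s hs
      replace hs : s ≤ 2 * K := hs
      show (2 * (Lf K s : ℝ) * ((z ^ R.k2 : ℕ) : ℝ)) ^ 2 * (1 / (z : ℝ) ^ R.k1) ≤ 1 / 4
      rw [R.hk1]
      push_cast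
      have hLs : (Lf K s : ℝ) ≤ Lf K (2 * K) := by exact_mod_cast Lf_mono K hs
      have hL0 : (0 : ℝ) ≤ Lf K s := Nat.cast_nonneg _
      have e1 : (2 * (Lf K s : ℝ) * (z : ℝ) ^ R.k2) ^ 2 * (1 / (z : ℝ) ^ (2 * R.k2 + 1)) =
          4 * (Lf K s : ℝ) ^ 2 / z := by
        rw [pow_succ (z : ℝ) (2 * R.k2), pow_mul' (z : ℝ) 2 R.k2]
        field_simp
        ring
      rw [e1, div_le_iff₀ hz0]
      have e2 : (Lf K s : ℝ) ^ 2 ≤ (Lf K (2 * K) : ℝ) ^ 2 := pow_le_pow_left₀ hL0 hLs 2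
      linarith) (by
      show (((z ^ R.m : ℕ) : ℝ)) * (((K + 1 : ℕ) : ℝ) ^ 2 * ((z ^ (R.m - 1) : ℕ) : ℝ) *
        (2 * (Lf K (2 * K) : ℝ) * (1 / ((z ^ R.m : ℕ) : ℝ)))) ^ (R.m + 1) ≤ 1 / 4
      push_cast
      have e1 : (z : ℝ) ^ R.m = (z : ℝ) ^ (R.m - 1) * z := by
        rw [← pow_succ]
        congr 1
        omega
      have e2 : ((K : ℝ) + 1) ^ 2 * (z : ℝ) ^ (R.m - 1) *
          (2 * (Lf K (2 * K) : ℝ) * (1 / (z : ℝ) ^ R.m)) =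
          (((K : ℝ) + 1) ^ 2 * (2 * (Lf K (2 * K) : ℝ))) / z := by
        rw [e1]
        field_simp
      rw [e2, div_pow, pow_succ (z : ℝ) R.m]
      have e3 : (z : ℝ) ^ R.m * ((((K : ℝ) + 1) ^ 2 * (2 * (Lf K (2 * K) : ℝ))) ^ (R.m + 1) /
          ((z : ℝ) ^ R.m * z)) = (((K : ℝ) + 1) ^ 2 * (2 * (Lf K (2 * K) : ℝ))) ^ (R.m + 1) / z := by
        field_simp
      rw [e3, div_le_iff₀ hz0]
      push_cast at h4
      linarith) (by
      show 2 * ((K + 1 : ℕ) : ℝ) ^ 2 * ((z ^ R.m : ℕ) : ℝ) ^ 2 * (((R.dat z hz).N : ℕ) : ℝ) ^ 2 *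
        (((z ^ R.m : ℕ) : ℝ) + 1) ^ (2 * z ^ R.w) *
        (1 - 1 / ((z : ℝ) ^ (4 * R.k1 * K) * (2 * ((z ^ R.k2 : ℕ) : ℝ) ^ 2))) ^ (z ^ (R.m - 1)) ≤
          1 / 4
      rw [R.N_eq]
      have hd : 1 / ((z : ℝ) ^ (4 * R.k1 * K) * (2 * ((z ^ R.k2 : ℕ) : ℝ) ^ 2)) ≤ 1 := by
        rw [div_le_one (by positivity)]
        have e1 : (1 : ℝ) ≤ (z : ℝ) ^ (4 * R.k1 * K) := one_le_pow₀ hz1
        have e2 : (1 : ℝ) ≤ 2 * ((z ^ R.k2 : ℕ) : ℝ) ^ 2 := by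
          push_cast
          have : (1 : ℝ) ≤ ((z : ℝ) ^ R.k2) ^ 2 := one_le_pow₀ (one_le_pow₀ hz1)
          linarith
        nlinarith
      refine (mul_le_mul_of_nonneg_left (one_sub_pow_le hd _) (by positivity)).trans ?_
      have e1 : 1 / ((z : ℝ) ^ (4 * R.k1 * K) * (2 * ((z ^ R.k2 : ℕ) : ℝ) ^ 2)) *
          ((z ^ (R.m - 1) : ℕ) : ℝ) = (z : ℝ) ^ R.w * (z / 2) := by
        push_cast
        have e2 : (z : ℝ) ^ (R.m - 1) = (z : ℝ) ^ R.w * z * ((z : ℝ) ^ (4 * R.k1 * K) *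
            ((z : ℝ) ^ R.k2) ^ 2) := by
          rw [← pow_mul, ← pow_succ, ← pow_add, ← pow_add]
          congr 1
          have := R.hw
          omega
        rw [e2]
        field_simp
      rw [e1]
      set W : ℝ := (z : ℝ) ^ R.w with hW
      have hW1 : 1 ≤ W := one_le_pow₀ hz1
      have e3 : (((z ^ R.m : ℕ) : ℝ) + 1) ^ (2 * z ^ R.w) ≤
          Real.exp ((2 * (R.m + 1) : ℝ) * Real.log z * W) := by
        have e4 : ((z ^ R.m : ℕ) : ℝ) + 1 ≤ (z : ℝ) ^ (R.m + 1) := by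
          push_cast
          rw [pow_succ]
          have : (1 : ℝ) ≤ (z : ℝ) ^ R.m := one_le_pow₀ hz1
          nlinarith
        refine (pow_le_pow_left₀ (by positivity) e4 _).trans (le_of_eq ?_)
        rw [← pow_mul, ← Real.exp_log hz0, ← Real.exp_nat_mul, Real.exp_log hz0]
        congr 1
        push_cast
        rw [← hW]
        ring
      have e5 : ((z ^ R.m : ℕ) : ℝ) ^ 2 * (((z ^ R.E : ℕ) : ℝ) ^ 2) =
          Real.exp ((2 * R.m + 2 * R.E : ℝ) * Real.log z) := by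
        push_cast
        rw [← pow_mul, ← pow_mul, ← pow_add]
        nth_rewrite 1 [← Real.exp_log hz0]
        rw [← Real.exp_nat_mul]
        congr 1
        push_cast
        ring
      have e6 : (2 : ℝ) * ((K + 1 : ℕ) : ℝ) ^ 2 =
          Real.exp (Real.log (8 * ((K + 1 : ℕ) : ℝ) ^ 2)) / 4 := by
        rw [Real.exp_log (by positivity)]
        ring
      have e7 : 2 * ((K + 1 : ℕ) : ℝ) ^ 2 * ((z ^ R.m : ℕ) : ℝ) ^ 2 * (((z ^ R.E : ℕ) : ℝ)) ^ 2 *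
        (((z ^ R.m : ℕ) : ℝ) + 1) ^ (2 * z ^ R.w) ≤
          Real.exp (Real.log (8 * ((K + 1 : ℕ) : ℝ) ^ 2)) / 4 *
          Real.exp ((2 * R.m + 2 * R.E : ℝ) * Real.log z) *
          Real.exp ((2 * (R.m + 1) : ℝ) * Real.log z * W) := by
        rw [mul_assoc (2 * ((K + 1 : ℕ) : ℝ) ^ 2), e5, e6]
        exact mul_le_mul_of_nonneg_left e3 (by positivity)
      refine (mul_le_mul_of_nonneg_right e7 (Real.exp_pos _).le).trans ?_
      have e8 : Real.exp (Real.log (8 * ((K + 1 : ℕ) : ℝ) ^ 2)) / 4 *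
          Real.exp ((2 * R.m + 2 * R.E : ℝ) * Real.log z) *
          Real.exp ((2 * (R.m + 1) : ℝ) * Real.log z * W) * Real.exp (-(W * (z / 2))) =
          Real.exp (Real.log (8 * ((K + 1 : ℕ) : ℝ) ^ 2) + (2 * R.m + 2 * R.E : ℝ) * Real.log z +
            (2 * (R.m + 1) : ℝ) * Real.log z * W - W * (z / 2)) / 4 := by
        rw [sub_eq_add_neg, Real.exp_add, Real.exp_add, Real.exp_add]
        ring
      rw [e8]
      have e9 : Real.log (8 * ((K + 1 : ℕ) : ℝ) ^ 2) + (2 * R.m + 2 * R.E : ℝ) * Real.log z +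
            (2 * (R.m + 1) : ℝ) * Real.log z * W - W * (z / 2) ≤ 0 := by
        have hl : 0 ≤ Real.log z := Real.log_nonneg hz1
        have hl2 : 0 ≤ Real.log (8 * ((K + 1 : ℕ) : ℝ) ^ 2) := by
          apply Real.log_nonneg
          have : (1 : ℝ) ≤ ((K + 1 : ℕ) : ℝ) ^ 2 := one_le_pow₀ (by exact_mod_cast Nat.succ_pos K)
          linarith
        have hmE : (0 : ℝ) ≤ (2 * R.m + 2 * R.E : ℝ) * Real.log z := by positivity
        have h6 : W * ((2 * R.m + 2 * R.E + 2 * (R.m + 1) : ℝ) * Real.log z +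
          Real.log (8 * ((K + 1 : ℕ) : ℝ) ^ 2)) ≤ W * (z / 2) :=
          mul_le_mul_of_nonneg_left h5 (by linarith)
        have h7 : Real.log (8 * ((K + 1 : ℕ) : ℝ) ^ 2) ≤
          W * Real.log (8 * ((K + 1 : ℕ) : ℝ) ^ 2) := le_mul_of_one_le_left hl2 hW1
        have h8 : (2 * R.m + 2 * R.E : ℝ) * Real.log z ≤
          W * ((2 * R.m + 2 * R.E : ℝ) * Real.log z) := le_mul_of_one_le_left hmE hW1
        nlinarith
      have e10 := Real.exp_le_one_iff.mpr e9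
      linarith)
  have hn1 : 1 ≤ n' := le_trans (Nat.one_le_pow _ _ (by omega)) hn
  refine ⟨M, hM1, hM2, ?_⟩
  have := lt_R hn1 hM1 hM3
  exact this

theorem Prm.eventually_z : ∀ᶠ z : ℕ in atTop, ∀ n', z ^ R.m ≤ n' →
    ∃ M : Fin n' → Fin n' → Prop, (∀ r, {c | M r c}.ncard ≤ R.deg) ∧
      (∀ c, {r | M r c}.ncard ≤ R.deg) ∧ z ^ R.E < Pool.Agent.H68.RS.R M := by
  have e1 : ∀ᶠ z : ℕ in atTop, ∀ s ∈ range (2 * K + 1),
      2 * (4 * ((K + 1 : ℕ) : ℝ) ^ 2) ^ (Lf K s ^ 2) ≤ z := by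
    rw [Filter.eventually_all_finset]
    intro s _
    exact ev_const _
  have e2 : ∀ᶠ z : ℕ in atTop, ∀ s ∈ range (2 * K + 1),
      (4 * (Lf K s : ℝ) * R.E) * Real.log z +
      Real.log (4 * ((K + 1 : ℕ) : ℝ) ^ 2) ≤ z / 2 ^ (4 * Lf K s ^ 2 + 1) := by
    rw [Filter.eventually_all_finset]
    intro s _
    exact ev_log _ _ _ (by positivity)
  filter_upwards [e1, e2, ev_const (16 * (Lf K (2 * K) : ℝ) ^ 2),
    ev_const (4 * (((K + 1 : ℕ) : ℝ) ^ 2 * (2 * (Lf K (2 * K) : ℝ))) ^ (R.m + 1)),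
    ev_log (2 * R.m + 2 * R.E + 2 * (R.m + 1) : ℝ) (Real.log (8 * ((K + 1 : ℕ) : ℝ) ^ 2)) 2
      (by norm_num), eventually_ge_atTop 2] with z h1 h2 h3 h4 h5 h6 n' hn'
  exact R.lower_z h6 (fun s hs => h1 s (mem_range.mpr (by omega)))
    (fun s hs => h2 s (mem_range.mpr (by omega))) h3 h4 h5 hn'

theorem Prm.eventually_n {α : ℝ} (hα0 : 0 ≤ α) (hα : α * R.m < R.E) :
    ∀ᶠ n : ℕ in atTop, ∃ M : Fin n → Fin n → Prop, (∀ r, {c | M r c}.ncard ≤ R.deg) ∧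
      (∀ c, {r | M r c}.ncard ≤ R.deg) ∧ (n : ℝ) ^ α ≤ Pool.Agent.H68.RS.R M := by
  have hm1 : 1 ≤ R.m := by have := R.m_ge; omega
  have hm0 : (0 : ℝ) < R.m := by exact_mod_cast hm1
  have hz : Tendsto (fun n : ℕ => ⌊(n : ℝ) ^ (1 / (R.m : ℝ))⌋₊) atTop atTop := by
    apply tendsto_nat_floor_atTop.comp
    exact (tendsto_rpow_atTop (by positivity)).comp tendsto_natCast_atTop_atTop
  have e1 := hz.eventually R.eventually_z
  have e2 : ∀ᶠ z : ℕ in atTop, (2 : ℝ) ^ (α * R.m) ≤ (z : ℝ) ^ (R.E - α * R.m) :=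
    ((tendsto_rpow_atTop (by linarith)).comp tendsto_natCast_atTop_atTop).eventually
      (eventually_ge_atTop _)
  have e3 := hz.eventually e2
  have e4 := hz.eventually (eventually_ge_atTop 1)
  filter_upwards [e1, e3, e4] with n h1 h2 h3
  set z := ⌊(n : ℝ) ^ (1 / (R.m : ℝ))⌋₊ with hzdef
  have hz1 : (1 : ℝ) ≤ z := by exact_mod_cast h3
  have hn0 : (0 : ℝ) ≤ n := Nat.cast_nonneg _
  have hroot : ((n : ℝ) ^ (1 / (R.m : ℝ))) ^ R.m = n := by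
    rw [← Real.rpow_natCast, ← Real.rpow_mul hn0]
    rw [one_div_mul_cancel hm0.ne', Real.rpow_one]
  have hle : z ^ R.m ≤ n := by
    have h4 : (z : ℝ) ≤ (n : ℝ) ^ (1 / (R.m : ℝ)) := Nat.floor_le (by positivity)
    have h5 : (z : ℝ) ^ R.m ≤ n := by
      rw [← hroot]
      exact pow_le_pow_left₀ (by linarith) h4 _
    exact_mod_cast h5
  have hlt : (n : ℝ) ≤ (2 * z : ℝ) ^ (R.m : ℝ) := by
    have h4 : (n : ℝ) ^ (1 / (R.m : ℝ)) ≤ 2 * z := by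
      have := (Nat.lt_floor_add_one ((n : ℝ) ^ (1 / (R.m : ℝ)))).le
      rw [← hzdef] at this
      linarith
    rw [Real.rpow_natCast, ← hroot]
    exact pow_le_pow_left₀ (by positivity) h4 _
  obtain ⟨M, hM1, hM2, hfin⟩ := h1 n hle
  have hfin' : (z : ℝ) ^ (R.E : ℝ) ≤ Pool.Agent.H68.RS.R M := by
    rw [Real.rpow_natCast]
    exact_mod_cast hfin.le
  refine ⟨M, hM1, hM2, le_trans ?_ hfin'⟩
  calc (n : ℝ) ^ α ≤ ((2 * z : ℝ) ^ (R.m : ℝ)) ^ α := Real.rpow_le_rpow hn0 hlt hα0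
    _ = (2 * z : ℝ) ^ (α * R.m) := by
        rw [← Real.rpow_mul (by linarith)]
        congr 1
        ring
    _ = (2 : ℝ) ^ (α * R.m) * (z : ℝ) ^ (α * R.m) :=
        Real.mul_rpow (by norm_num) (by linarith)
    _ ≤ (z : ℝ) ^ (R.E - α * R.m) * (z : ℝ) ^ (α * R.m) :=
        mul_le_mul_of_nonneg_right h2 (by positivity)
    _ = (z : ℝ) ^ (R.E : ℝ) := by
        rw [← Real.rpow_add (by linarith)]
        congr 1
        ring

theorem Prm.eventually_K {α : ℝ} (hα0 : 0 ≤ α) (hα : 2 * α < K + 1) :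
    ∀ᶠ n : ℕ in atTop, ∃ M : Fin n → Fin n → Prop, (∀ r, {c | M r c}.ncard ≤ R.deg) ∧
      (∀ c, {r | M r c}.ncard ≤ R.deg) ∧ (n : ℝ) ^ α ≤ Pool.Agent.H68.RS.R M := by
  apply R.eventually_n hα0
  have h1 : (K + 1) * R.m ≤ 2 * R.E := R.hE
  have h2 : ((K : ℝ) + 1) * R.m ≤ 2 * R.E := by exact_mod_cast h1
  have hm1 : 1 ≤ R.m := by have := R.m_ge; omega
  have hm0 : (0 : ℝ) < R.m := by exact_mod_cast hm1
  nlinarith

end Pool.Agent.H46.TS
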