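import Pool.Agent.H46.TS.Core

/-! Existence of a good colouring. -/

namespace Pool.Agent.H46.TS

open Finset Pool.Agent.H46.SR

namespace Dat

variable (P : Dat)

theorem stuck_inv {I : Type} {y : ℕ} (τ : P.T) (t : ZMod 2) (A B : I × Fin y → Fin P.N)
    (hA : Function.Injective A) (hB : Function.Injective B) (c c' : Fin y × Fin y) (hne : c ≠ c')
    (ω ω' : P.Sp) :
    P.Stuck (mix (P.D τ (fun i => A (i, c'.1)) (fun i => B (i, c'.2))) ω ω') τ t
      (fun i => A (i, c.1)) (fun i => B (i, c.2)) ↔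
    P.Stuck ω τ t (fun i => A (i, c.1)) (fun i => B (i, c.2)) := by
  have key : ∀ x y' : I → Fin P.N, (∀ i, P.cell τ.1.val (x i) = A (i, c.1)) →
      (∀ i, P.cell τ.2.val (y' i) = B (i, c.2)) → ∀ i j,
      P.col (mix (P.D τ (fun i => A (i, c'.1)) (fun i => B (i, c'.2))) ω ω') (x i) (y' j) =
        P.col ω (x i) (y' j) := by
    intro x y' hx hy i j
    unfold col
    apply Finset.sum_congr rfl
    intro τ' _
    apply P.F_mix'
    intro hmem
    obtain ⟨⟨i', hi'⟩, ⟨j', hj'⟩⟩ := P.of_mem_D hmem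
    rw [hx i] at hi'
    rw [hy j] at hj'
    have e1 := hA hi'
    have e2 := hB hj'
    simp only [Prod.mk.injEq] at e1 e2
    exact hne (Prod.ext e1.2 e2.2)
  unfold Stuck
  constructor
  · intro h x y' hx hy
    obtain ⟨i, j, hij⟩ := h x y' hx hy
    rw [key x y' hx hy] at hij
    exact ⟨i, j, hij⟩
  · intro h x y' hx hy
    obtain ⟨i, j, hij⟩ := h x y' hx hy
    rw [← key x y' hx hy] at hij
    exact ⟨i, j, hij⟩

/-- lower bound for the probability of being stuck -/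
noncomputable def cc (L s : ℕ) : ℝ := (P.pr s / 2) ^ (4 * L ^ 2) / 2

theorem cc_pos (L s : ℕ) : 0 < P.cc L s := by
  unfold cc
  have := P.pr_pos s
  positivity

theorem cc_le_one (L s : ℕ) (hκ1 : ∀ s, 1 ≤ P.κ s) : P.cc L s ≤ 1 := by
  unfold cc
  have h1 := P.pr_pos s
  have h2 := P.pr_le_half (hκ1 s)
  have h3 : (P.pr s / 2) ^ (4 * L ^ 2) ≤ 1 := pow_le_one₀ (by linarith) (by linarith)
  linarith

theorem av_nostuck {L y : ℕ} (hκ1 : ∀ s, 1 ≤ P.κ s) (τ : P.T) (t : ZMod 2)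
    (A B : (Fin L × Bool) × Fin y → Fin P.N) {p : ℝ} (hp0 : 0 ≤ p)
    (hA : Function.Injective A) (hB : Function.Injective B)
    (hA' : ∀ i i', P.Sib (A i) (A i')) (hB' : ∀ i i', P.Sib (B i) (B i'))
    (hp : ∀ τ' : P.T, τ'.1 ≤ τ.1 → τ'.2 ≤ τ.2 → τ' ≠ τ → P.pr (τ'.1.val + τ'.2.val) ≤ p)
    (hhalf : (P.N : ℝ) ^ (4 * L) * (4 * ((P.K + 1 : ℕ) : ℝ) ^ 2 * p) ^ (L ^ 2) ≤ 1 / 2) :
    av (fun ω : P.Sp => ind (∀ c : Fin y × Fin y, ¬ P.Stuck ω τ t (fun i => A (i, c.1))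
      (fun i => B (i, c.2)))) ≤ (1 - P.cc L (τ.1.val + τ.2.val)) ^ (y ^ 2) := by
  have h := prod_bound (ι := P.Co) (B := Fin P.Q) (Λ := Fin y × Fin y)
    (fun c => P.D τ (fun i => A (i, c.1)) (fun i => B (i, c.2)))
    (fun c ω => ¬ P.Stuck ω τ t (fun i => A (i, c.1)) (fun i => B (i, c.2)))
    (p := 1 - P.cc L (τ.1.val + τ.2.val))
    (by linarith [P.cc_le_one L (τ.1.val + τ.2.val) hκ1])
    (fun c c' hne ω ω' => not_congr (P.stuck_inv τ t A B hA hB c c' hne ω ω'))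
    (by
      intro c ω
      have h1 := P.av_stuck hκ1 τ t (fun i => A (i, c.1)) (fun i => B (i, c.2)) hp0
        (fun i i' h => (Prod.mk.inj (hA h)).1) (fun i i' h => (Prod.mk.inj (hB h)).1)
        (fun i i' => hA' _ _) (fun i i' => hB' _ _) hp hhalf ω
      have h2 : av (fun ω' => ind (¬ P.Stuck (mix (P.D τ (fun i => A (i, c.1))
          (fun i => B (i, c.2))) ω ω') τ t (fun i => A (i, c.1)) (fun i => B (i, c.2)))) =
          1 + (-1) * av (fun ω' => ind (P.Stuck (mix (P.D τ (fun i => A (i, c.1))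
          (fun i => B (i, c.2))) ω ω') τ t (fun i => A (i, c.1)) (fun i => B (i, c.2)))) := by
        rw [← av_mul_left, ← av_const (Ω := P.Sp) (1 : ℝ), ← av_add]
        apply av_congr
        intro ω'
        rw [ind_not, av_const]
        ring
      rw [h2]
      have h3 : P.cc L (τ.1.val + τ.2.val) = (P.pr (τ.1.val + τ.2.val) / 2) ^ (4 * L ^ 2) / 2 := rfl
      rw [h3]
      linarith)
    (univ : Finset (Fin y × Fin y))
  rw [Finset.card_univ, Fintype.card_prod, Fintype.card_fin] at h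
  have e : y * y = y ^ 2 := by ring
  rw [e] at h
  refine le_trans (av_mono ?_) h
  intro ω
  apply ind_mono
  intro h' c _
  exact h' c

/-- a good colouring -/
def Good (ω : P.Sp) (Lf : ℕ → ℕ) (y : ℕ) : Prop :=
  ∀ (τ : P.T) (t : ZMod 2) (A B : (Fin (Lf (τ.1.val + τ.2.val)) × Bool) × Fin y → Fin P.N),
    Function.Injective A → Function.Injective B → (∀ i i', P.Sib (A i) (A i')) →
    (∀ i i', P.Sib (B i) (B i')) →
    ∃ c : Fin y × Fin y, P.Stuck ω τ t (fun i => A (i, c.1)) (fun i => B (i, c.2))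

theorem exists_good (hκ1 : ∀ s, 1 ≤ P.κ s) (Lf : ℕ → ℕ) (y : ℕ) (p : ℕ → ℝ)
    (hp0 : ∀ s, 0 ≤ p s)
    (hp : ∀ τ τ' : P.T, τ'.1 ≤ τ.1 → τ'.2 ≤ τ.2 → τ' ≠ τ →
      P.pr (τ'.1.val + τ'.2.val) ≤ p (τ.1.val + τ.2.val))
    (hhalf : ∀ s, s ≤ 2 * P.K → (P.N : ℝ) ^ (4 * Lf s) *
      (4 * ((P.K + 1 : ℕ) : ℝ) ^ 2 * p s) ^ (Lf s ^ 2) ≤ 1 / 2)
    (hsm : ∀ s, s ≤ 2 * P.K → (P.N : ℝ) ^ (4 * Lf s * y) * (1 - P.cc (Lf s) s) ^ (y ^ 2) ≤
      1 / (4 * ((P.K + 1 : ℕ) : ℝ) ^ 2)) :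
    ∃ ω, P.Good ω Lf y := by
  classical
  by_contra hcon
  push Not at hcon
  -- the bad events
  obtain ⟨ev, hev⟩ : ∃ ev : (τ : P.T) → ZMod 2 →
      (((Fin (Lf (τ.1.val + τ.2.val)) × Bool) × Fin y → Fin P.N) ×
        ((Fin (Lf (τ.1.val + τ.2.val)) × Bool) × Fin y → Fin P.N)) → P.Sp → Prop,
      ∀ τ t AB ω, ev τ t AB ω ↔ (Function.Injective AB.1 ∧ Function.Injective AB.2 ∧
        (∀ i i', P.Sib (AB.1 i) (AB.1 i')) ∧ (∀ i i', P.Sib (AB.2 i) (AB.2 i')) ∧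
        ∀ c : Fin y × Fin y, ¬ P.Stuck ω τ t (fun i => AB.1 (i, c.1)) (fun i => AB.2 (i, c.2))) :=
    ⟨fun τ t AB ω => _, fun _ _ _ _ => Iff.rfl⟩
  have h1 : ∀ ω : P.Sp, (1 : ℝ) ≤ ∑ τ : P.T, ∑ t : ZMod 2, ∑ AB, ind (ev τ t AB ω) := by
    intro ω
    have := hcon ω
    unfold Good at this
    push Not at this
    obtain ⟨τ, t, A, B, hA, hB, hA', hB', hno⟩ := this
    have h2 : ind (ev τ t (A, B) ω) = 1 := ind_pos ((hev _ _ _ _).mpr ⟨hA, hB, hA', hB', hno⟩)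
    calc (1 : ℝ) = ind (ev τ t (A, B) ω) := h2.symm
      _ ≤ ∑ AB, ind (ev τ t AB ω) :=
          Finset.single_le_sum (f := fun AB => ind (ev τ t AB ω)) (fun _ _ => ind_nonneg _)
            (mem_univ (A, B))
      _ ≤ ∑ t : ZMod 2, ∑ AB, ind (ev τ t AB ω) :=
          Finset.single_le_sum (f := fun t => ∑ AB, ind (ev τ t AB ω))
            (fun _ _ => Finset.sum_nonneg (fun _ _ => ind_nonneg _)) (mem_univ t)
      _ ≤ _ := Finset.single_le_sum (f := fun τ : P.T => ∑ t : ZMod 2, ∑ AB, ind (ev τ t AB ω))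
            (fun _ _ => Finset.sum_nonneg (fun _ _ => Finset.sum_nonneg (fun _ _ => ind_nonneg _)))
            (mem_univ τ)
  have h2 : ∀ τ : P.T, ∀ t : ZMod 2, ∀ AB, av (fun ω => ind (ev τ t AB ω)) ≤
      (1 - P.cc (Lf (τ.1.val + τ.2.val)) (τ.1.val + τ.2.val)) ^ (y ^ 2) := by
    intro τ t AB
    have hs : τ.1.val + τ.2.val ≤ 2 * P.K := by
      have := τ.1.2
      have := τ.2.2
      omega
    by_cases h : Function.Injective AB.1 ∧ Function.Injective AB.2 ∧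
        (∀ i i', P.Sib (AB.1 i) (AB.1 i')) ∧ (∀ i i', P.Sib (AB.2 i) (AB.2 i'))
    · obtain ⟨hA, hB, hA', hB'⟩ := h
      refine le_trans (av_mono ?_) (P.av_nostuck hκ1 τ t AB.1 AB.2 (hp0 _) hA hB hA' hB'
        (hp τ) (hhalf _ hs))
      intro ω
      apply ind_mono
      intro h'
      exact ((hev _ _ _ _).mp h').2.2.2.2
    · have h3 : ∀ ω, ind (ev τ t AB ω) = 0 := by
        intro ω
        apply ind_neg
        intro h'
        have := (hev _ _ _ _).mp h'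
        exact h ⟨this.1, this.2.1, this.2.2.1, this.2.2.2.1⟩
      simp only [h3]
      rw [av_const]
      have := P.cc_le_one (Lf (τ.1.val + τ.2.val)) (τ.1.val + τ.2.val) hκ1
      exact pow_nonneg (by linarith) _
  have h3 : (1 : ℝ) ≤ ∑ τ : P.T, ∑ t : ZMod 2, ∑ AB, av (fun ω => ind (ev τ t AB ω)) := by
    have h4 : (1 : ℝ) ≤ av (fun ω : P.Sp => ∑ τ : P.T, ∑ t : ZMod 2, ∑ AB, ind (ev τ t AB ω)) := by
      calc (1 : ℝ) = av (fun _ : P.Sp => (1 : ℝ)) := (av_const 1).symm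
        _ ≤ _ := av_mono h1
    refine h4.trans (le_of_eq ?_)
    rw [av_sum]
    apply Finset.sum_congr rfl
    intro τ _
    rw [av_sum]
    apply Finset.sum_congr rfl
    intro t _
    rw [av_sum]
  have h4 : ∀ τ : P.T, ∑ t : ZMod 2, ∑ AB, av (fun ω => ind (ev τ t AB ω)) ≤
      2 * (1 / (4 * ((P.K + 1 : ℕ) : ℝ) ^ 2)) := by
    intro τ
    have hs : τ.1.val + τ.2.val ≤ 2 * P.K := by
      have := τ.1.2
      have := τ.2.2
      omega
    have h5 : ∀ t : ZMod 2, ∑ AB, av (fun ω => ind (ev τ t AB ω)) ≤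
        1 / (4 * ((P.K + 1 : ℕ) : ℝ) ^ 2) := by
      intro t
      refine (Finset.sum_le_sum (fun AB _ => h2 τ t AB)).trans ?_
      refine le_trans (le_of_eq ?_) (hsm _ hs)
      rw [Finset.sum_const, Finset.card_univ, nsmul_eq_mul]
      congr 1
      simp only [Fintype.card_prod, Fintype.card_fun, Fintype.card_fin, Fintype.card_bool]
      push_cast
      rw [← pow_add]
      congr 1
      ring
    refine (Finset.sum_le_sum (fun t _ => h5 t)).trans (le_of_eq ?_)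
    rw [Finset.sum_const, Finset.card_univ, ZMod.card, nsmul_eq_mul]
    norm_num
  have h5 := h3.trans (Finset.sum_le_sum (fun τ _ => h4 τ))
  rw [Finset.sum_const, Finset.card_univ, nsmul_eq_mul] at h5
  simp only [Fintype.card_prod, Fintype.card_fin] at h5
  have h6 : (0 : ℝ) < ((P.K + 1 : ℕ) : ℝ) := by positivity
  have h7 : (((P.K + 1) * (P.K + 1) : ℕ) : ℝ) * (2 * (1 / (4 * ((P.K + 1 : ℕ) : ℝ) ^ 2))) = 1 / 2 := by
    push_cast
    field_simp
    norm_num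
  rw [h7] at h5
  norm_num at h5

end Dat

end Pool.Agent.H46.TS
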