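import Pool.Agent.H46.TS.Good

/-! Random groups of rows and columns. -/

namespace Pool.Agent.H46.TS

open Finset Pool.Agent.H46.SR

theorem av_coord {ι B : Type*} [Fintype ι] [DecidableEq ι] [Fintype B] [Nonempty B] (c : ι)
    (g : B → ℝ) : av (fun ω : ι → B => g (ω c)) = av g := by
  have h := av_comp_inj (C := Unit) (D := ι) (B := B) (fun _ => c)
    (fun _ _ _ => rfl) (fun ω => g (ω ()))
  rw [h]
  exact av_equiv (Equiv.funUnique Unit B) g

theorem av_ind_eq {m c : ℕ} (hc : c < m) : av (fun a : Fin m => ind (a.val = c)) = 1 / (m : ℝ) := by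
  unfold av
  rw [Fintype.card_fin]
  congr 1
  rw [Finset.sum_eq_single (⟨c, hc⟩ : Fin m)]
  · exact ind_pos rfl
  · intro b _ hb
    apply ind_neg
    intro h
    exact hb (Fin.ext h)
  · intro h
    exact absurd (mem_univ _) h

theorem av_ind_eq_le (m c : ℕ) : av (fun a : Fin m => ind (a.val = c)) ≤ 1 / (m : ℝ) := by
  by_cases hc : c < m
  · exact (av_ind_eq hc).le
  · have : ∀ a : Fin m, ind (a.val = c) = 0 := by
      intro a
      apply ind_neg
      have := a.2
      omega
    unfold av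
    simp only [this, Finset.sum_const_zero, zero_div]
    positivity

/-- the row of a group -/
def pl (l X Y : ℕ) : ℕ := X / l * l + Y % l

theorem pl_div {l : ℕ} (hl : 0 < l) (X Y : ℕ) : pl l X Y / l = X / l := by
  unfold pl
  rw [mul_comm, Nat.mul_add_div hl, Nat.div_eq_of_lt (Nat.mod_lt _ hl), add_zero]

theorem pl_mod (l X Y : ℕ) : pl l X Y % l = Y % l := by
  unfold pl
  rw [mul_comm, Nat.mul_add_mod, Nat.mod_mod]

theorem av_block {q l β : ℕ} (hl : 0 < l) (hβ : β < q) :
    av (fun X : Fin (q * l) => ind (X.val / l = β)) = 1 / (q : ℝ) := by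
  have : Nonempty (Fin l) := ⟨⟨0, hl⟩⟩
  rw [av_divmod (fun x _ => ind (x = β)), av_prod]
  have : ∀ a : Fin q, av (fun _ : Fin l => ind (a.val = β)) = ind (a.val = β) :=
    fun _ => av_const _
  rw [av_congr this]
  exact av_ind_eq hβ

theorem av_block_le {q l β : ℕ} (hl : 0 < l) :
    av (fun X : Fin (q * l) => ind (X.val / l = β)) ≤ 1 / (q : ℝ) := by
  have : Nonempty (Fin l) := ⟨⟨0, hl⟩⟩
  rw [av_divmod (fun x _ => ind (x = β)), av_prod]
  have : ∀ a : Fin q, av (fun _ : Fin l => ind (a.val = β)) = ind (a.val = β) :=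
    fun _ => av_const _
  rw [av_congr this]
  exact av_ind_eq_le _ _

theorem av_mod_le {q l ρ : ℕ} (hq : 0 < q) :
    av (fun X : Fin (q * l) => ind (X.val % l = ρ)) ≤ 1 / (l : ℝ) := by
  have : Nonempty (Fin q) := ⟨⟨0, hq⟩⟩
  rw [av_divmod (fun _ y => ind (y = ρ)), av_prod]
  calc _ ≤ av (fun _ : Fin q => 1 / (l : ℝ)) := av_mono (fun _ => av_ind_eq_le _ _)
    _ = 1 / (l : ℝ) := av_const _

/-- a given row is the `i`-th row of the group with probability at most `1 / n` -/
theorem av_pl {ι : Type*} [Fintype ι] [DecidableEq ι] {n q l : ℕ} (hn : n = q * l) (hq : 0 < q)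
    (hl : 0 < l) (r : ℕ) (i : ι) :
    av (fun p : Fin n × (ι → Fin n) => ind (pl l p.1.val (p.2 i).val = r)) ≤ 1 / (n : ℝ) := by
  subst hn
  have : Nonempty (Fin (q * l)) := ⟨⟨0, Nat.mul_pos hq hl⟩⟩
  calc _ ≤ av (fun p : Fin (q * l) × (ι → Fin (q * l)) =>
        ind (p.1.val / l = r / l) * ind ((p.2 i).val % l = r % l)) := by
        apply av_mono
        intro p
        rw [← ind_and]
        apply ind_mono
        intro h
        constructor
        · rw [← h, pl_div hl]
        · rw [← h, pl_mod]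
    _ = av (fun X : Fin (q * l) => ind (X.val / l = r / l)) *
          av (fun Y : ι → Fin (q * l) => ind ((Y i).val % l = r % l)) :=
        av_prod_mul (fun X : Fin (q * l) => ind (X.val / l = r / l))
          (fun Y : ι → Fin (q * l) => ind ((Y i).val % l = r % l))
    _ = av (fun X : Fin (q * l) => ind (X.val / l = r / l)) *
          av (fun Y : Fin (q * l) => ind (Y.val % l = r % l)) := by
        rw [av_coord i (fun Y : Fin (q * l) => ind (Y.val % l = r % l))]
    _ ≤ (1 / (q : ℝ)) * (1 / (l : ℝ)) := by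
        apply mul_le_mul (av_block_le hl) (av_mod_le hq)
        · exact av_nonneg (fun _ => ind_nonneg _)
        · positivity
    _ = 1 / ((q * l : ℕ) : ℝ) := by
        push_cast
        rw [one_div_mul_one_div]

/-- collisions are rare -/
theorem av_inj {J V : Type*} [Fintype J] [DecidableEq J] {n : ℕ} (hn : 0 < n) (f : Fin n → V)
    {ρ : ℝ} (hρ : ∀ v, av (fun Y : Fin n => ind (f Y = v)) ≤ ρ) :
    1 - (Fintype.card J : ℝ) ^ 2 * ρ ≤
      av (fun Y : J → Fin n => ind (Function.Injective (fun j => f (Y j)))) := by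
  classical
  have : Nonempty (Fin n) := ⟨⟨0, hn⟩⟩
  have hρ0 : 0 ≤ ρ := by
    refine le_trans ?_ (hρ (f ⟨0, hn⟩))
    exact av_nonneg (fun _ => ind_nonneg _)
  have h1 : ∀ Y : J → Fin n, 1 + (-1) * ∑ p : J × J, (if p.1 ≠ p.2 then ind (f (Y p.1) = f (Y p.2))
      else 0) ≤ ind (Function.Injective (fun j => f (Y j))) := by
    intro Y
    have hnn : ∀ p : J × J, 0 ≤ (if p.1 ≠ p.2 then ind (f (Y p.1) = f (Y p.2)) else 0) := by
      intro p
      split_ifs
      · exact ind_nonneg _
      · exact le_rfl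
    by_cases h : Function.Injective (fun j => f (Y j))
    · rw [ind_pos h]
      have := Finset.sum_nonneg (fun p (_ : p ∈ (univ : Finset (J × J))) => hnn p)
      linarith
    · rw [ind_neg h]
      unfold Function.Injective at h
      push Not at h
      obtain ⟨a, b, hab, hne⟩ := h
      have := Finset.single_le_sum (fun p (_ : p ∈ (univ : Finset (J × J))) => hnn p)
        (mem_univ (a, b))
      rw [if_pos hne, ind_pos hab] at this
      linarith
  refine le_trans ?_ (av_mono h1)
  rw [av_add, av_const, av_mul_left, av_sum]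
  have h2 : ∀ p : J × J, av (fun Y : J → Fin n =>
      (if p.1 ≠ p.2 then ind (f (Y p.1) = f (Y p.2)) else 0)) ≤ ρ := by
    intro p
    by_cases hp : p.1 ≠ p.2
    · simp only [hp, ne_eq, not_false_eq_true, if_true]
      rw [av_mix {p.1}]
      have h3 : ∀ ω : J → Fin n, av (fun ω' : J → Fin n =>
          ind (f (mix {p.1} ω ω' p.1) = f (mix {p.1} ω ω' p.2))) ≤ ρ := by
        intro ω
        have h4 : ∀ ω' : J → Fin n, ind (f (mix {p.1} ω ω' p.1) = f (mix {p.1} ω ω' p.2)) =
            (fun b : Fin n => ind (f b = f (ω p.2))) (ω' p.1) := by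
          intro ω'
          rw [mix_mem (Set.mem_singleton _), mix_not_mem (fun h => hp h.symm)]
        rw [av_congr h4, av_coord p.1 (fun b : Fin n => ind (f b = f (ω p.2)))]
        exact hρ _
      exact (av_mono h3).trans (av_const ρ).le
    · simp only [hp, if_false]
      rw [av_const]
      exact hρ0
  have h3 := Finset.sum_le_sum (fun p (_ : p ∈ (univ : Finset (J × J))) => h2 p)
  rw [Finset.sum_const, Finset.card_univ, Fintype.card_prod, nsmul_eq_mul] at h3
  push_cast at h3
  have h4 : (Fintype.card J : ℝ) * (Fintype.card J : ℝ) * ρ = (Fintype.card J : ℝ) ^ 2 * ρ := by ring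
  rw [h4] at h3
  linarith

namespace Dat

variable (P : Dat)

/-- a random group in the right block is stuck with probability at least `1 / (2 y^2)` -/
theorem av_group {n y : ℕ} (hn : 0 < n) (hy : 0 < y) {Lf : ℕ → ℕ} {ω : P.Sp} (hω : P.Good ω Lf y)
    (τ : P.T) (t : ZMod 2) (h h' : Fin n → Fin P.N) (hs : ∀ Y Y', P.Sib (h Y) (h Y'))
    (hs' : ∀ Y Y', P.Sib (h' Y) (h' Y')) {ρ : ℝ}
    (hρ : ∀ v, av (fun Y : Fin n => ind (h Y = v)) ≤ ρ)
    (hρ' : ∀ v, av (fun Y : Fin n => ind (h' Y = v)) ≤ ρ)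
    (hsm : (2 * (Lf (τ.1.val + τ.2.val) : ℝ) * y) ^ 2 * ρ ≤ 1 / 4) :
    1 / (2 * (y : ℝ) ^ 2) ≤
      av (fun p : (Fin (Lf (τ.1.val + τ.2.val)) × Bool → Fin n) ×
        (Fin (Lf (τ.1.val + τ.2.val)) × Bool → Fin n) =>
        ind (P.Stuck ω τ t (fun i => h (p.1 i)) (fun i => h' (p.2 i)))) := by
  classical
  have : Nonempty (Fin n) := ⟨⟨0, hn⟩⟩
  set L := Lf (τ.1.val + τ.2.val) with hL
  obtain ⟨P1, hP1⟩ : ∃ P1 : ℝ, P1 = av (fun p : (Fin L × Bool → Fin n) × (Fin L × Bool → Fin n) =>
        ind (P.Stuck ω τ t (fun i => h (p.1 i)) (fun i => h' (p.2 i)))) := ⟨_, rfl⟩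
  rw [← hP1]
  -- the sampling inequality
  have h1 : ∀ p : ((Fin L × Bool) × Fin y → Fin n) × ((Fin L × Bool) × Fin y → Fin n),
      ind (Function.Injective (fun j => h (p.1 j))) *
      ind (Function.Injective (fun j => h' (p.2 j))) ≤
      ∑ c : Fin y × Fin y, ind (P.Stuck ω τ t (fun i => h (p.1 (i, c.1)))
        (fun i => h' (p.2 (i, c.2)))) := by
    intro p
    rw [← ind_and]
    apply ind_le_sum
    rintro ⟨hi, hi'⟩
    exact hω τ t (fun j => h (p.1 j)) (fun j => h' (p.2 j)) hi hi' (fun _ _ => hs _ _)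
      (fun _ _ => hs' _ _)
  have h2 := av_mono h1
  rw [av_prod_mul (fun Y : (Fin L × Bool) × Fin y → Fin n =>
    ind (Function.Injective (fun j => h (Y j)))) (fun Y : (Fin L × Bool) × Fin y → Fin n =>
    ind (Function.Injective (fun j => h' (Y j)))), av_sum] at h2
  have hcard : (Fintype.card ((Fin L × Bool) × Fin y) : ℝ) = 2 * (L : ℝ) * y := by
    simp only [Fintype.card_prod, Fintype.card_fin, Fintype.card_bool]
    push_cast
    ring
  have h3 : 3 / 4 ≤ av (fun Y : (Fin L × Bool) × Fin y → Fin n =>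
      ind (Function.Injective (fun j => h (Y j)))) := by
    have := av_inj (J := (Fin L × Bool) × Fin y) hn h hρ
    rw [hcard] at this
    linarith
  have h4 : 3 / 4 ≤ av (fun Y : (Fin L × Bool) × Fin y → Fin n =>
      ind (Function.Injective (fun j => h' (Y j)))) := by
    have := av_inj (J := (Fin L × Bool) × Fin y) hn h' hρ'
    rw [hcard] at this
    linarith
  have h5 : ∀ c : Fin y × Fin y, av (fun p : ((Fin L × Bool) × Fin y → Fin n) ×
      ((Fin L × Bool) × Fin y → Fin n) => ind (P.Stuck ω τ t (fun i => h (p.1 (i, c.1)))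
        (fun i => h' (p.2 (i, c.2))))) = P1 := by
    intro c
    rw [hP1, av_prod, av_prod]
    have e1 : ∀ a : (Fin L × Bool) × Fin y → Fin n,
        av (fun b : (Fin L × Bool) × Fin y → Fin n => ind (P.Stuck ω τ t
          (fun i => h (a (i, c.1))) (fun i => h' (b (i, c.2))))) =
        av (fun b : Fin L × Bool → Fin n => ind (P.Stuck ω τ t
          (fun i => h (a (i, c.1))) (fun i => h' (b i)))) := by
      intro a
      exact av_comp_inj (fun i : Fin L × Bool => (i, c.2)) (fun i i' hh => (Prod.mk.inj hh).1)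
        (fun b : Fin L × Bool → Fin n => ind (P.Stuck ω τ t
          (fun i => h (a (i, c.1))) (fun i => h' (b i))))
    rw [av_congr e1]
    exact av_comp_inj (fun i : Fin L × Bool => (i, c.1)) (fun i i' hh => (Prod.mk.inj hh).1)
        (fun a : Fin L × Bool → Fin n => av (fun b : Fin L × Bool → Fin n =>
          ind (P.Stuck ω τ t (fun i => h (a i)) (fun i => h' (b i)))))
  rw [Finset.sum_congr rfl (fun c _ => h5 c), Finset.sum_const, Finset.card_univ,
    Fintype.card_prod, Fintype.card_fin, nsmul_eq_mul] at h2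
  have hy0 : (0 : ℝ) < y := by exact_mod_cast hy
  rw [div_le_iff₀ (by positivity)]
  push_cast at h2
  have h6 : (3 / 4 : ℝ) * (3 / 4) ≤ (y : ℝ) * y * P1 := by
    refine le_trans ?_ h2
    exact mul_le_mul h3 h4 (by norm_num) (by linarith)
  nlinarith

end Dat

end Pool.Agent.H46.TS
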