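import Pool.Agent.H46.TS.Degree

/-! The choice of the parameters. -/

namespace Pool.Agent.H46.TS

open Finset Pool.Agent.H46.SR Pool.Agent.H68.RS Filter Topology

def Lf (K : ℕ) : ℕ → ℕ
  | 0 => 1
  | s + 1 => 8 * (K + 2) * (128 * (K + 1) * (Lf K s) ^ 2) + 1

def Df (K s : ℕ) : ℕ := 128 * (K + 1) * (Lf K s) ^ 2

theorem Lf_pos (K s : ℕ) : 1 ≤ Lf K s := by
  cases s with
  | zero => exact le_rfl
  | succ s => unfold Lf; omega

theorem Lf_le_succ (K s : ℕ) : Lf K s ≤ Lf K (s + 1) := by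
  show Lf K s ≤ 8 * (K + 2) * (128 * (K + 1) * (Lf K s) ^ 2) + 1
  have h := Lf_pos K s
  generalize Lf K s = x at *
  have h1 : x ≤ x ^ 2 := by nlinarith
  have h2 : x ^ 2 ≤ 128 * (K + 1) * x ^ 2 := Nat.le_mul_of_pos_left _ (by omega)
  have h3 : 128 * (K + 1) * x ^ 2 ≤ 8 * (K + 2) * (128 * (K + 1) * x ^ 2) :=
    Nat.le_mul_of_pos_left _ (by omega)
  omega

theorem Lf_mono (K : ℕ) : Monotone (Lf K) := monotone_nat_of_le_succ (Lf_le_succ K)

theorem Df_pos (K s : ℕ) : 0 < Df K s := by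
  unfold Df
  have := Lf_pos K s
  positivity

theorem Df_mono (K : ℕ) : Monotone (Df K) := by
  intro s s' h
  unfold Df
  exact Nat.mul_le_mul_left _ (Nat.pow_le_pow_left (Lf_mono K h) 2)

/-- all parameters -/
structure Prm (K : ℕ) where
  m : ℕ
  k1 : ℕ
  k2 : ℕ
  w : ℕ
  s0 : ℕ
  κ : ℕ → ℕ
  hκ1 : ∀ s, 1 ≤ κ s
  hκm : ∀ s s', s ≤ s' → κ s' ≤ κ s
  hk2 : ∀ s, s ≤ 2 * K → 4 * κ s * (Lf K s) ^ 2 + 1 ≤ k2
  hL : ∀ s, s + 1 ≤ 2 * K → 4 * (s0 + (K + 1) * w) + 1 ≤ κ s * Lf K (s + 1)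
  hk1 : k1 = 2 * k2 + 1
  hw : w + 2 + 4 * k1 * K + 2 * k2 = m
  hs0 : s0 + 2 * k1 * (K + 1) + 1 = m
  hE : (K + 1) * m ≤ 2 * (s0 + (K + 1) * w)

theorem exists_prm (K : ℕ) :
    ∃ R : Prm K, R.m = 100 * (K + 1) * ∏ s ∈ range (2 * K + 1), Df K s := by
  classical
  set m := 100 * (K + 1) * ∏ s ∈ range (2 * K + 1), Df K s with hm
  have hprod : 0 < ∏ s ∈ range (2 * K + 1), Df K s := Finset.prod_pos (fun s _ => Df_pos K s)
  have hdvd : ∀ s, s ≤ 2 * K → Df K s ∣ m := by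
    intro s hs
    rw [hm]
    apply Dvd.dvd.mul_left
    exact Finset.dvd_prod_of_mem _ (mem_range.mpr (by omega))
  have hmpos : 0 < m := by rw [hm]; positivity
  -- D0
  obtain ⟨μ, hμ⟩ : ∃ μ, m = 32 * (K + 1) * μ := by
    have h1 := hdvd 0 (by omega)
    have h2 : 32 * (K + 1) ∣ Df K 0 := by
      unfold Df
      exact ⟨4 * (Lf K 0) ^ 2, by ring⟩
    obtain ⟨μ, hμ⟩ := h2.trans h1
    exact ⟨μ, hμ⟩
  have hμ4 : 4 ≤ μ := by
    have h1 : Df K 0 ≤ ∏ s ∈ range (2 * K + 1), Df K s := by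
      exact Nat.le_of_dvd hprod (Finset.dvd_prod_of_mem _ (mem_range.mpr (by omega)))
    have h2 : 128 * (K + 1) ≤ Df K 0 := by
      unfold Df Lf
      omega
    have h3 : 100 * (K + 1) * (128 * (K + 1)) ≤ m := by
      rw [hm]
      exact Nat.mul_le_mul_left _ (h2.trans h1)
    by_contra hcon
    push Not at hcon
    have h4 : m ≤ 32 * (K + 1) * 3 := by
      rw [hμ]
      exact Nat.mul_le_mul_left _ (by omega)
    nlinarith
  have hmK : m = 32 * K * μ + 32 * μ := by rw [hμ]; ring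
  set κ : ℕ → ℕ := fun s => m / Df K (min s (2 * K)) with hκ
  have hκD : ∀ s, s ≤ 2 * K → κ s * Df K s = m := by
    intro s hs
    rw [hκ]
    simp only
    rw [min_eq_left hs]
    exact Nat.div_mul_cancel (hdvd s hs)
  have hk2eq : ∀ s, s ≤ 2 * K → 4 * κ s * (Lf K s) ^ 2 = μ := by
    intro s hs
    have h1 := hκD s hs
    unfold Df at h1
    have h2 : 32 * (K + 1) * (4 * κ s * (Lf K s) ^ 2) = 32 * (K + 1) * μ := by
      rw [← hμ, ← h1]
      ring
    exact Nat.eq_of_mul_eq_mul_left (by positivity) h2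
  have hKμ : K * 4 ≤ K * μ := Nat.mul_le_mul_left _ hμ4
  have e1 : 4 * (2 * (μ + 1) + 1) * K = 8 * (K * μ) + 12 * K := by ring
  have e2 : 2 * (2 * (μ + 1) + 1) * (K + 1) = 4 * (K * μ) + 4 * μ + 6 * K + 6 := by ring
  have hmK' : m = 32 * (K * μ) + 32 * μ := by rw [hmK]; ring
  refine ⟨{ m := m, k1 := 2 * (μ + 1) + 1, k2 := μ + 1,
            w := m - (2 + 4 * (2 * (μ + 1) + 1) * K + 2 * (μ + 1)),
            s0 := m - (2 * (2 * (μ + 1) + 1) * (K + 1) + 1), κ := κ, hκ1 := ?_, hκm := ?_,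
            hk2 := ?_, hL := ?_, hk1 := rfl, hw := ?_, hs0 := ?_, hE := ?_ }, rfl⟩
  · intro s
    rw [hκ]
    simp only
    exact Nat.div_pos (Nat.le_of_dvd hmpos (hdvd _ (min_le_right _ _))) (Df_pos _ _)
  · intro s s' h
    rw [hκ]
    simp only
    exact Nat.div_le_div_left (Df_mono K (min_le_min_right _ h)) (Df_pos _ _)
  · intro s hs
    rw [hk2eq s hs]
  · intro s hs
    have h1 : Lf K (s + 1) = 8 * (K + 2) * Df K s + 1 := rfl
    rw [h1]
    have h2 := hκD s (by omega)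
    have h3 : κ s * (8 * (K + 2) * Df K s + 1) = 8 * (K + 2) * m + κ s := by
      rw [← h2]
      ring
    rw [h3]
    have h4 : 1 ≤ κ s := by
      rcases Nat.eq_zero_or_pos (κ s) with h | h
      · rw [h] at h2; omega
      · exact h
    have h5 : (K + 1) * (m - (2 + 4 * (2 * (μ + 1) + 1) * K + 2 * (μ + 1))) ≤ (K + 1) * m :=
      Nat.mul_le_mul_left _ (Nat.sub_le _ _)
    have h6 : m - (2 * (2 * (μ + 1) + 1) * (K + 1) + 1) ≤ m := Nat.sub_le _ _
    have h7 : 8 * (K + 2) * m = 8 * ((K + 1) * m) + 8 * m := by ring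
    omega
  · rw [e1]
    omega
  · rw [e2]
    omega
  · rw [e1, e2]
    have h1 : m ≤ 2 * (m - (2 + (8 * (K * μ) + 12 * K) + 2 * (μ + 1))) := by omega
    have h2 : (K + 1) * m ≤ (K + 1) * (2 * (m - (2 + (8 * (K * μ) + 12 * K) + 2 * (μ + 1)))) :=
      Nat.mul_le_mul_left _ h1
    have h3 : (K + 1) * (2 * (m - (2 + (8 * (K * μ) + 12 * K) + 2 * (μ + 1)))) =
      2 * ((K + 1) * (m - (2 + (8 * (K * μ) + 12 * K) + 2 * (μ + 1)))) := by ring
    omega

/-- `log z` is small -/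
theorem ev_log (a b c : ℝ) (hc : 0 < c) : ∀ᶠ z : ℕ in atTop, a * Real.log z + b ≤ z / c := by
  have h1 : ∀ᶠ z : ℕ in atTop, |a| * Real.log z ≤ z / (2 * c) := by
    have h := (Real.isLittleO_log_id_atTop.bound (show 0 < 1 / ((|a| + 1) * (2 * c)) by positivity))
    have h' := tendsto_natCast_atTop_atTop.eventually h
    filter_upwards [h', eventually_ge_atTop 1] with z hz hz1
    have hz1' : (1 : ℝ) ≤ (z : ℝ) := by exact_mod_cast hz1
    have hz0 : (0 : ℝ) ≤ (z : ℝ) := by linarith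
    simp only [id, Real.norm_eq_abs, abs_of_nonneg (Real.log_nonneg hz1'), abs_of_nonneg hz0] at hz
    have hlog := Real.log_nonneg hz1'
    have ha := abs_nonneg a
    calc |a| * Real.log z ≤ (|a| + 1) * Real.log z := by nlinarith
      _ ≤ (|a| + 1) * (1 / ((|a| + 1) * (2 * c)) * z) := mul_le_mul_of_nonneg_left hz (by linarith)
      _ = z / (2 * c) := by field_simp
  have h2 : ∀ᶠ z : ℕ in atTop, b ≤ (z : ℝ) / (2 * c) := by
    have := (tendsto_natCast_atTop_atTop (R := ℝ)).eventually (eventually_ge_atTop (b * (2 * c)))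
    filter_upwards [this] with z hz
    rw [le_div_iff₀ (by positivity)]
    exact hz
  filter_upwards [h1, h2, eventually_ge_atTop 1] with z hz1 hz2 hz3
  have hlog : 0 ≤ Real.log z := Real.log_nonneg (by exact_mod_cast hz3)
  have h3 : a * Real.log z ≤ |a| * Real.log z := mul_le_mul_of_nonneg_right (le_abs_self a) hlog
  have h4 : (z : ℝ) / c = z / (2 * c) + z / (2 * c) := by field_simp; norm_num
  linarith

theorem ev_const (b : ℝ) : ∀ᶠ z : ℕ in atTop, b ≤ (z : ℝ) :=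
  (tendsto_natCast_atTop_atTop (R := ℝ)).eventually (eventually_ge_atTop b)

/-- `(1 - x)^k ≤ exp (-x k)` -/
theorem one_sub_pow_le {x : ℝ} (h1 : x ≤ 1) (k : ℕ) : (1 - x) ^ k ≤ Real.exp (-(x * k)) := by
  calc (1 - x) ^ k ≤ (Real.exp (-x)) ^ k := by
        apply pow_le_pow_left₀ (by linarith)
        have := Real.add_one_le_exp (-x)
        linarith
    _ = Real.exp (-(x * k)) := by
        rw [← Real.exp_nat_mul]
        congr 1
        ring

variable {K : ℕ} (R : Prm K)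

/-- exponent of `N` -/
def Prm.E : ℕ := R.s0 + (K + 1) * R.w

def Prm.dat (z : ℕ) (hz : 2 ≤ z) : Dat where
  K := K
  s0 := R.s0
  w := R.w
  κ := R.κ
  z := z
  hz := hz
  hκ := fun s => R.hκm 0 s (Nat.zero_le _)

theorem Prm.N_eq (z : ℕ) (hz : 2 ≤ z) : (R.dat z hz).N = z ^ R.E := rfl

theorem Prm.good {z : ℕ} (hz : 2 ≤ z)
    (h1 : ∀ s, s ≤ 2 * K → 2 * (4 * ((K + 1 : ℕ) : ℝ) ^ 2) ^ (Lf K s ^ 2) ≤ z)
    (h2 : ∀ s, s ≤ 2 * K → (4 * (Lf K s : ℝ) * R.E) * Real.log z +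
      Real.log (4 * ((K + 1 : ℕ) : ℝ) ^ 2) ≤ z / 2 ^ (4 * Lf K s ^ 2 + 1)) :
    ∃ ω, (R.dat z hz).Good ω (Lf K) (z ^ R.k2) := by
  have hz0 : (0 : ℝ) < z := by
    have : 0 < z := by omega
    exact_mod_cast this
  have hz1 : (1 : ℝ) ≤ z := by
    have : 1 ≤ z := by omega
    exact_mod_cast this
  apply (R.dat z hz).exists_good R.hκ1 (Lf K) (z ^ R.k2)
    (fun s => if s = 0 then 0 else 1 / (z : ℝ) ^ R.κ (s - 1))
  · intro s
    split_ifs
    · exact le_rfl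
    · positivity
  · intro τ τ' h3 h4 hne
    have h5 : τ'.1.val + τ'.2.val < τ.1.val + τ.2.val := by
      rw [Fin.le_def] at h3 h4
      have h6 : ¬ (τ'.1.val = τ.1.val ∧ τ'.2.val = τ.2.val) := by
        rintro ⟨h7, h8⟩
        exact hne (Prod.ext (Fin.ext h7) (Fin.ext h8))
      omega
    rw [if_neg (by omega)]
    unfold Dat.pr
    show 1 / (z : ℝ) ^ R.κ _ ≤ _
    apply one_div_le_one_div_of_le (by positivity)
    apply pow_le_pow_right₀ hz1
    apply R.hκm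
    omega
  · intro s hs
    replace hs : s ≤ 2 * K := hs
    by_cases hs0 : s = 0
    · subst hs0
      rw [if_pos rfl, mul_zero]
      have : Lf K 0 = 1 := rfl
      rw [this]
      norm_num
    · rw [if_neg hs0]
      set L := Lf K s with hL
      have hL1 : 1 ≤ L := Lf_pos K s
      show (((R.dat z hz).N : ℕ) : ℝ) ^ (4 * L) * (4 * ((K + 1 : ℕ) : ℝ) ^ 2 *
        (1 / (z : ℝ) ^ R.κ (s - 1))) ^ (L ^ 2) ≤ 1 / 2
      rw [R.N_eq]
      push_cast
      have h3 := R.hL (s - 1) (by omega)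
      have h4 : s - 1 + 1 = s := by omega
      rw [h4, ← hL] at h3
      have hE : R.E = R.s0 + (K + 1) * R.w := rfl
      rw [← hE] at h3
      have h5 : R.E * (4 * L) + 1 ≤ R.κ (s - 1) * L ^ 2 := by
        have h6 : (4 * R.E + 1) * L ≤ R.κ (s - 1) * L * L := Nat.mul_le_mul_right _ h3
        have h7 : R.κ (s - 1) * L * L = R.κ (s - 1) * L ^ 2 := by ring
        rw [← h7]
        refine le_trans ?_ h6
        rw [Nat.add_mul, one_mul]
        have h8 : R.E * (4 * L) = 4 * R.E * L := by ring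
        omega
      have h6 := h1 s hs
      rw [← hL] at h6
      push_cast at h6
      rw [← pow_mul, mul_pow, one_div_pow, ← pow_mul]
      have h7 : (z : ℝ) ^ (R.E * (4 * L)) * z ≤ (z : ℝ) ^ (R.κ (s - 1) * L ^ 2) := by
        rw [← pow_succ]
        exact pow_le_pow_right₀ hz1 h5
      have h8 : (0 : ℝ) < (z : ℝ) ^ (R.κ (s - 1) * L ^ 2) := by positivity
      rw [mul_one_div, ← mul_div_assoc, div_le_iff₀ h8]
      have h9 : (0 : ℝ) < (z : ℝ) ^ (R.E * (4 * L)) := by positivity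
      nlinarith
  · intro s hs
    replace hs : s ≤ 2 * K := hs
    set L := Lf K s with hL
    have hcc : (R.dat z hz).cc L s = 1 / ((z : ℝ) ^ (R.κ s * (4 * L ^ 2)) * 2 ^ (4 * L ^ 2 + 1)) := by
      unfold Dat.cc Dat.pr
      show (1 / (z : ℝ) ^ R.κ s / 2) ^ (4 * L ^ 2) / 2 = _
      rw [div_div, one_div_pow, mul_pow, ← pow_mul, div_div, pow_succ]
      congr 1
      ring
    have hccle := (R.dat z hz).cc_le_one L s R.hκ1
    refine (mul_le_mul_of_nonneg_left (one_sub_pow_le hccle _) (by positivity)).trans ?_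
    rw [hcc, R.N_eq]
    push_cast
    have h3 := R.hk2 s hs
    rw [← hL] at h3
    set y : ℝ := (z : ℝ) ^ R.k2 with hy
    have hy1 : 1 ≤ y := one_le_pow₀ hz1
    -- the exponent
    have h4 : y * (z / 2 ^ (4 * L ^ 2 + 1)) ≤
        1 / ((z : ℝ) ^ (R.κ s * (4 * L ^ 2)) * 2 ^ (4 * L ^ 2 + 1)) * (y ^ 2) := by
      have h5 : (z : ℝ) ^ (R.κ s * (4 * L ^ 2)) * z ≤ y := by
        rw [← pow_succ, hy]
        apply pow_le_pow_right₀ hz1
        have : R.κ s * (4 * L ^ 2) = 4 * R.κ s * L ^ 2 := by ring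
        omega
      rw [one_div_mul_eq_div, le_div_iff₀ (by positivity)]
      have h6 : y * (z / 2 ^ (4 * L ^ 2 + 1)) * ((z : ℝ) ^ (R.κ s * (4 * L ^ 2)) *
          2 ^ (4 * L ^ 2 + 1)) = y * ((z : ℝ) ^ (R.κ s * (4 * L ^ 2)) * z) := by
        field_simp
      rw [h6]
      have hy0 : 0 ≤ y := le_trans zero_le_one hy1
      have h7 : y * ((z : ℝ) ^ (R.κ s * (4 * L ^ 2)) * z) ≤ y * y := mul_le_mul_of_nonneg_left h5 hy0
      exact h7.trans (le_of_eq (sq y).symm)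
    have h5 : ((z : ℝ) ^ R.E) ^ (4 * L * z ^ R.k2) =
        Real.exp ((4 * (L : ℝ) * R.E) * Real.log z * y) := by
      rw [← pow_mul, ← Real.exp_log hz0, ← Real.exp_nat_mul, Real.exp_log hz0]
      congr 1
      push_cast
      rw [← hy]
      ring
    rw [h5, ← Real.exp_add]
    have h6 := h2 s hs
    rw [← hL] at h6
    push_cast at h6
    have hpos : (1 : ℝ) ≤ 4 * ((K : ℝ) + 1) ^ 2 := by
      have : (1 : ℝ) ≤ ((K : ℝ) + 1) ^ 2 := one_le_pow₀ (by
        have : (0 : ℝ) ≤ K := Nat.cast_nonneg _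
        linarith)
      linarith
    have hlogpos : 0 ≤ Real.log (4 * ((K : ℝ) + 1) ^ 2) := Real.log_nonneg hpos
    have h7 : Real.exp (-Real.log (4 * ((K : ℝ) + 1) ^ 2)) = 1 / (4 * ((K : ℝ) + 1) ^ 2) := by
      rw [Real.exp_neg, Real.exp_log (by linarith), one_div]
    show _ ≤ 1 / (4 * ((K : ℝ) + 1) ^ 2)
    rw [← h7]
    apply Real.exp_le_exp.mpr
    have h8 : ((z ^ R.k2 : ℕ) : ℝ) = y := by push_cast; rfl
    have h9 : y * ((4 * (L : ℝ) * R.E) * Real.log z + Real.log (4 * ((K : ℝ) + 1) ^ 2)) ≤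
        y * (z / 2 ^ (4 * L ^ 2 + 1)) := mul_le_mul_of_nonneg_left h6 (by linarith)
    have h10 : Real.log (4 * ((K : ℝ) + 1) ^ 2) ≤ y * Real.log (4 * ((K : ℝ) + 1) ^ 2) := by
      nlinarith
    nlinarith

end Pool.Agent.H46.TS
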