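import Pool.Agent.H46.TS.Bound

/-! The exponent of `g_d(n)` (at most `d` 1-entries in each row and in each column) is unbounded
as `d` grows. -/

namespace Pool.Agent.H46.TS.TwoSidedOld

open Pool.Agent.H68.RS Filter

/-- `g_d(n)`: the largest `R(M)` over `n × n` matrices with at most `d` 1-entries in each row and
in each column. -/
noncomputable def g (d n : ℕ) : ℕ :=
  sSup {m : ℕ | ∃ M : Fin n → Fin n → Prop, (∀ r, {c | M r c}.ncard ≤ d) ∧
    (∀ c, {r | M r c}.ncard ≤ d) ∧ R M = m}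

/-- For every real `C` there is a `d` such that `g_d(n) ≥ n^C` for all large `n`. More precisely,
if `k ≥ 1` and `d ≥ 2^(2^(3k+4))` then `g_d(n) ≥ n^α` for all large `n`, for every `α < k/2`. -/
theorem result :
    (∀ C : ℝ, ∃ d : ℕ, ∀ᶠ n : ℕ in atTop, (n : ℝ) ^ C ≤ g d n) ∧
    ∀ k d : ℕ, 1 ≤ k → 2 ^ 2 ^ (3 * k + 4) ≤ d → ∀ α : ℝ, α < k / 2 →
      ∀ᶠ n : ℕ in atTop, (n : ℝ) ^ α ≤ g d n := by
  have key : ∀ k d : ℕ, 1 ≤ k → 2 ^ 2 ^ (3 * k + 4) ≤ d → ∀ α : ℝ, α < k / 2 →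
      ∀ᶠ n : ℕ in atTop, (n : ℝ) ^ α ≤ g d n := by
    intro k d hk hd α hα
    filter_upwards [Pool.Agent.H46.TS.main k d hk hd α hα, eventually_ge_atTop 1] with n hn hn1
    obtain ⟨M, hM1, hM2, hM3⟩ := hn
    refine hM3.trans ?_
    have h1 : R M ≤ g d n := by
      apply le_csSup
      · refine ⟨n ^ (d + 1), ?_⟩
        rintro m ⟨M, hM, _, rfl⟩
        exact R_le hn1 M hM
      · exact ⟨M, hM1, hM2, rfl⟩
    exact_mod_cast h1
  refine ⟨fun C => ?_, key⟩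
  obtain ⟨k, hk⟩ := exists_nat_gt (2 * C)
  refine ⟨2 ^ 2 ^ (3 * (k + 1) + 4), key (k + 1) _ (by omega) le_rfl C ?_⟩
  push_cast
  linarith

end Pool.Agent.H46.TS.TwoSidedOld
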